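import Pool.Agent.Helper4.ZC.Cyc

set_option autoImplicit false

/-! Tournaments which differ by a finite balanced set of edges are connected by reversals of
cycles. -/

namespace Pool.Agent.Helper4.ZC

open Function Order

universe u

variable {V : Type u}

open Classical in
/-- `R` and `R'` differ in finitely many edges, and every vertex has the same in-degree in both,
in the sense that is meaningful for a finite difference. -/
def Bal (R R' : V → V → Prop) : Prop :=
  ∃ F₀ : Finset V, (∀ u v, ¬ (u ∈ F₀ ∧ v ∈ F₀) → (R u v ↔ R' u v)) ∧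
    ∀ v, (F₀.filter fun w => R w v).card = (F₀.filter fun w => R' w v).card

open Classical in
theorem bal_superset {R R' : V → V → Prop} {F₀ F : Finset V} (hF : F₀ ⊆ F)
    (h1 : ∀ u v, ¬ (u ∈ F₀ ∧ v ∈ F₀) → (R u v ↔ R' u v))
    (h2 : ∀ v, (F₀.filter fun w => R w v).card = (F₀.filter fun w => R' w v).card) (v : V) :
    (F.filter fun w => R w v).card = (F.filter fun w => R' w v).card := by
  have key : ∀ Q : V → V → Prop, (F.filter fun w => Q w v).card =
      (F₀.filter fun w => Q w v).card + ((F \ F₀).filter fun w => Q w v).card := by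
    intro Q
    rw [← Finset.card_union_of_disjoint, ← Finset.filter_union, Finset.union_sdiff_of_subset hF]
    exact Finset.disjoint_filter_filter Finset.disjoint_sdiff
  rw [key R, key R', h2 v]
  congr 2
  apply Finset.filter_congr
  intro w hw
  exact h1 w v fun h => (Finset.mem_sdiff.1 hw).2 h.1

theorem Bal.refl (R : V → V → Prop) : Bal R R := ⟨∅, fun _ _ _ => Iff.rfl, fun _ => rfl⟩

theorem Bal.symm {R R' : V → V → Prop} (h : Bal R R') : Bal R' R := by
  obtain ⟨F₀, h1, h2⟩ := h
  exact ⟨F₀, fun u v huv => (h1 u v huv).symm, fun v => (h2 v).symm⟩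

theorem Bal.trans {R R' R'' : V → V → Prop} (h : Bal R R') (h' : Bal R' R'') : Bal R R'' := by
  classical
  obtain ⟨F₀, h1, h2⟩ := h
  obtain ⟨F₁, h3, h4⟩ := h'
  refine ⟨F₀ ∪ F₁, fun u v huv => ?_, fun v => ?_⟩
  · rw [h1 u v fun h => huv ⟨Finset.mem_union_left _ h.1, Finset.mem_union_left _ h.2⟩,
      h3 u v fun h => huv ⟨Finset.mem_union_right _ h.1, Finset.mem_union_right _ h.2⟩]
  · rw [bal_superset Finset.subset_union_left h1 h2, bal_superset Finset.subset_union_right h3 h4]

theorem bal_reverse {R : V → V → Prop} (hR : IsT R) {S : Set (Sym2 V)} (hS : IsCycle R S) :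
    Bal R (reverse R S) := by
  classical
  obtain ⟨n, hn, p, hp, hpr, rfl⟩ := hS
  have : NeZero n := ⟨by omega⟩
  refine ⟨Finset.univ.image p, fun u v huv => ?_, fun v => ?_⟩
  · rw [reverse_of_notMem]
    rintro ⟨i, hi⟩
    apply huv
    simp only [Sym2.eq_iff] at hi
    rcases hi with ⟨h1, h2⟩ | ⟨h1, h2⟩
    · exact ⟨by rw [← h1]; simp, by rw [← h2]; simp⟩
    · exact ⟨by rw [← h2]; simp, by rw [← h1]; simp⟩
  · by_cases hv : ∃ i, p i = v
    · obtain ⟨i, rfl⟩ := hv
      have h1 : R (p (i - 1)) (p i) := by
        have := hpr (i - 1)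
        rwa [sub_add_cancel] at this
      have h2 : R (p i) (p (i + 1)) := hpr i
      have h3 : p (i - 1) ≠ p (i + 1) := fun h => by
        rw [h] at h1
        exact hR.asymm h1 h2
      have hmem : ∀ w, s(w, p i) ∈ (Set.range fun i => s(p i, p (i + 1))) ↔
          w = p (i - 1) ∨ w = p (i + 1) := by
        intro w
        constructor
        · rintro ⟨j, hj⟩
          simp only [Sym2.eq_iff] at hj
          rcases hj with ⟨h4, h5⟩ | ⟨h4, h5⟩
          · left
            have h6 : j + 1 = i := hp h5
            rw [← h4, ← h6, add_sub_cancel_right]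
          · right
            have h6 : j = i := hp h4
            rw [← h5, h6]
        · rintro (rfl | rfl)
          · exact ⟨i - 1, by simp⟩
          · exact ⟨i, Sym2.eq_swap⟩
      have hfil : ((Finset.univ.image p).filter fun w =>
          reverse R (Set.range fun i => s(p i, p (i + 1))) w (p i)) =
          insert (p (i + 1)) (((Finset.univ.image p).filter fun w => R w (p i)).erase
            (p (i - 1))) := by
        ext w
        simp only [Finset.mem_filter, Finset.mem_insert, Finset.mem_erase]
        by_cases hw1 : w = p (i + 1)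
        · subst hw1
          simp only [true_or, iff_true]
          refine ⟨by simp, ?_⟩
          rw [reverse_of_mem ((hmem _).2 (Or.inr rfl))]
          exact h2
        · by_cases hw2 : w = p (i - 1)
          · subst hw2
            simp only [hw1, ne_eq, not_true_eq_false, false_and, or_false, iff_false, not_and]
            intro _
            rw [reverse_of_mem ((hmem _).2 (Or.inl rfl))]
            exact hR.asymm h1
          · rw [reverse_of_notMem (fun h => by
              rcases (hmem w).1 h with h | h
              · exact hw2 h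
              · exact hw1 h)]
            simp [hw1, hw2]
      rw [hfil, Finset.card_insert_of_notMem, Finset.card_erase_of_mem]
      · have : 0 < ((Finset.univ.image p).filter fun w => R w (p i)).card := by
          apply Finset.card_pos.2
          exact ⟨p (i - 1), by simp [h1]⟩
        omega
      · simp [h1]
      · simp only [Finset.mem_erase, Finset.mem_filter, not_and]
        intro _ _
        exact hR.asymm h2
    · congr 1
      apply Finset.filter_congr
      intro w _
      rw [reverse_of_notMem]
      rintro ⟨j, hj⟩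
      simp only [Sym2.eq_iff] at hj
      rcases hj with ⟨h4, h5⟩ | ⟨h4, h5⟩
      · exact hv ⟨_, h5⟩
      · exact hv ⟨_, h4⟩

/-- Finitely many reversals of cycles, none of which uses an edge of `F`. -/
def FinRev (F : Set (Sym2 V)) (R R' : V → V → Prop) : Prop :=
  Relation.ReflTransGen (fun a b => ∃ S, IsCycle a S ∧ Disjoint S F ∧ b = reverse a S) R R'

theorem FinRev.revA {F : Set (Sym2 V)} {R R' : V → V → Prop} (h : FinRev F R R') :
    RevA F R R' := by
  induction h with
  | refl => exact RevA.refl _ _
  | tail _ h ih =>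
    obtain ⟨S, hS1, hS2, rfl⟩ := h
    exact ih.trans' (RevA.single (Or.inl hS1) hS2)

theorem finRev_of_bal {F : Set (Sym2 V)} {R' : V → V → Prop} (hR' : IsT R') : ∀ (N : ℕ)
    (R : V → V → Prop), IsT R → Bal R R' → (∀ u v, s(u, v) ∈ F → (R u v ↔ R' u v)) →
    {q : V × V | R q.1 q.2 ∧ ¬ R' q.1 q.2}.ncard = N → FinRev F R R' := by
  classical
  intro N
  induction N using Nat.strong_induction_on with
  | _ N ih =>
    intro R hR hbal hF hN
    have hbal' := hbal
    obtain ⟨F₀, h1, h2⟩ := hbal'
    have hDF : ∀ u v, R u v → ¬ R' u v → u ∈ F₀ ∧ v ∈ F₀ := by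
      intro u v h3 h4
      by_contra h5
      exact h4 ((h1 u v h5).1 h3)
    have hfin : {q : V × V | R q.1 q.2 ∧ ¬ R' q.1 q.2}.Finite :=
      (F₀ ×ˢ F₀).finite_toSet.subset fun q hq => by
        have := hDF q.1 q.2 hq.1 hq.2
        rw [Finset.mem_coe, Finset.mem_product]
        exact this
    by_cases hex : ∃ u v, R u v ∧ ¬ R' u v
    · obtain ⟨u₀, v₀, h3, h4⟩ := hex
      -- every vertex with an in-edge has an out-edge
      have hout : ∀ v, (∃ u, R u v ∧ ¬ R' u v) → ∃ w, R v w ∧ ¬ R' v w := by
        rintro v ⟨u, h5, h6⟩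
        have hcard := h2 v
        by_contra hno
        push Not at hno
        -- then the in-neighbours for `R'` are a proper subset of those for `R`
        have hsub : (F₀.filter fun w => R' w v) ⊂ (F₀.filter fun w => R w v) := by
          rw [Finset.ssubset_iff_of_subset]
          · exact ⟨u, by simp [h5, (hDF u v h5 h6).1], by simp [h6]⟩
          · intro w hw
            rw [Finset.mem_filter] at hw ⊢
            refine ⟨hw.1, ?_⟩
            by_contra h7
            have h8 : R v w := hR.of_not (hR'.ne hw.2).symm h7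
            exact hR'.asymm hw.2 (hno w h8)
        have := Finset.card_lt_card hsub
        omega
      let X : Set V := {v | ∃ u, R u v ∧ ¬ R' u v}
      have hXfin : X.Finite := F₀.finite_toSet.subset fun v hv => by
        obtain ⟨u, h5, h6⟩ := hv
        exact (hDF u v h5 h6).2
      let f : V → V := fun v => if h : ∃ w, R v w ∧ ¬ R' v w then h.choose else v
      have hf : ∀ v ∈ X, R v (f v) ∧ ¬ R' v (f v) := by
        intro v hv
        have h5 := hout v hv
        simp only [f, dif_pos h5]
        exact h5.choose_spec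
      have hfX : ∀ v ∈ X, f v ∈ X := fun v hv => ⟨v, hf v hv⟩
      have hv₀ : v₀ ∈ X := ⟨u₀, h3, h4⟩
      have hit : ∀ (v : V), v ∈ X → ∀ n, f^[n] v ∈ X := by
        intro v hv n
        induction n with
        | zero => exact hv
        | succ n ih => rw [iterate_succ_apply']; exact hfX _ ih
      -- a periodic point
      obtain ⟨i, j, hij, hijeq⟩ : ∃ i j : ℕ, i < j ∧ f^[i] v₀ = f^[j] v₀ := by
        have : Finite X := hXfin
        obtain ⟨i, j, hne, heq⟩ := Finite.exists_ne_map_eq_of_infinite
          (fun n : ℕ => (⟨f^[n] v₀, hit v₀ hv₀ n⟩ : X))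
        have heq' : f^[i] v₀ = f^[j] v₀ := congrArg Subtype.val heq
        rcases lt_or_gt_of_ne hne with h | h
        · exact ⟨i, j, h, heq'⟩
        · exact ⟨j, i, h, heq'.symm⟩
      set x := f^[i] v₀ with hx
      have hxX : x ∈ X := hit v₀ hv₀ i
      have hper : IsPeriodicPt f (j - i) x := by
        rw [IsPeriodicPt, IsFixedPt, hx, ← iterate_add_apply, show j - i + i = j by omega, ← hijeq]
      have hpos : 0 < minimalPeriod f x := hper.minimalPeriod_pos (by omega)
      obtain ⟨k, hk⟩ : ∃ k, minimalPeriod f x = k + 1 := ⟨minimalPeriod f x - 1, by omega⟩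
      have hq : ∀ i, R (f^[i] x) (f^[i + 1] x) ∧ ¬ R' (f^[i] x) (f^[i + 1] x) := fun i => by
        rw [iterate_succ_apply']; exact hf _ (hit x hxX i)
      have hclose : f^[k + 1] x = x := by
        rw [← hk]; exact isPeriodicPt_minimalPeriod f x
      have hk1 : 1 ≤ k := by
        by_contra h5
        have h6 : k = 0 := by omega
        rw [h6] at hclose
        have h7 := (hq 0).1
        rw [hclose] at h7
        exact hR.irrefl _ h7
      have hinj : ∀ i ≤ k, ∀ j ≤ k, f^[i] x = f^[j] x → i = j := by
        intro i hi j hj h5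
        apply iterate_injOn_Iio_minimalPeriod (f := f) (x := x)
        · rw [hk, Set.mem_Iio]; omega
        · rw [hk, Set.mem_Iio]; omega
        · exact h5
      have hcyc := isCycle_of_path (r := R) k hk1 (fun i => f^[i] x) hinj (fun i _ => (hq i).1)
        (by have := (hq k).1; rwa [hclose] at this)
      set S : Set (Sym2 V) := {e | (∃ i < k, e = s((fun i => f^[i] x) i, (fun i => f^[i] x) (i + 1))) ∨
        e = s((fun i => f^[i] x) k, (fun i => f^[i] x) 0)} with hS
      have hSD : ∀ e ∈ S, ∃ a b, e = s(a, b) ∧ R a b ∧ ¬ R' a b := by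
        rintro e (⟨i, hi, rfl⟩ | rfl)
        · exact ⟨_, _, rfl, hq i⟩
        · refine ⟨_, _, rfl, ?_⟩
          have := hq k
          rwa [hclose] at this
      have hSF : Disjoint S F := by
        rw [Set.disjoint_left]
        intro e he heF
        obtain ⟨a, b, rfl, h5, h6⟩ := hSD e he
        exact h6 ((hF a b heF).1 h5)
      have hD1 : {q : V × V | reverse R S q.1 q.2 ∧ ¬ R' q.1 q.2} ⊂
          {q : V × V | R q.1 q.2 ∧ ¬ R' q.1 q.2} := by
        rw [Set.ssubset_iff_of_subset]
        · refine ⟨(x, f x), hf x hxX, ?_⟩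
          rintro ⟨h5, -⟩
          have h6 : s(x, f x) ∈ S := Or.inl ⟨0, by omega, rfl⟩
          rw [reverse_of_mem h6] at h5
          exact hR.asymm (hf x hxX).1 h5
        · rintro ⟨u, v⟩ ⟨h5, h6⟩
          simp only at h5 h6
          by_cases h7 : s(u, v) ∈ S
          · exfalso
            obtain ⟨a, b, h8, h9, h10⟩ := hSD _ h7
            rw [reverse_of_mem h7] at h5
            rw [Sym2.eq_iff] at h8
            rcases h8 with ⟨rfl, rfl⟩ | ⟨rfl, rfl⟩
            · exact hR.asymm h9 h5
            · exact h6 (hR'.of_not (hR.ne h9).symm h10)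
          · rw [reverse_of_notMem h7] at h5
            exact ⟨h5, h6⟩
      have hlt := Set.ncard_lt_ncard hD1 hfin
      rw [hN] at hlt
      refine Relation.ReflTransGen.head ⟨S, hcyc, hSF, rfl⟩ ?_
      apply ih _ hlt (reverse R S) (hR.reverse S) ((bal_reverse hR hcyc).symm.trans hbal) _ rfl
      intro u v huv
      rw [reverse_of_notMem (fun h => Set.disjoint_left.1 hSF h huv)]
      exact hF u v huv
    · push Not at hex
      have : R = R' := by
        ext u v
        refine ⟨hex u v, fun h => ?_⟩
        by_contra h5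
        exact hR'.asymm h (hex v u (hR.of_not (hR'.ne h).symm h5))
      rw [this]
      exact Relation.ReflTransGen.refl

/-- Every tournament in the closure of the tournaments which differ from `R` by a finite balanced
set is reachable. -/
theorem revA_of_closure [Countable V] {R s : V → V → Prop} (hR : IsT R)
    (h : ∀ E : Finset (Sym2 V), ∃ R', IsT R' ∧ Bal R R' ∧
      ∀ x y, s(x, y) ∈ E → (R' x y ↔ s x y)) : RevA ∅ R s := by
  classical
  have : Countable (Sym2 V) := inferInstance
  have : Encodable (Sym2 V) := Encodable.ofCountable (Sym2 V)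
  have hFfin : ∀ n, {e : Sym2 V | Encodable.encode e < n}.Finite := fun n =>
    Set.Finite.preimage (f := fun e : Sym2 V => Encodable.encode e)
      (Encodable.encode_injective.injOn) (Set.finite_lt_nat n)
  choose A hA1 hA2 hA3 using h
  let RR : ℕ → V → V → Prop := fun n => if n = 0 then R else A (hFfin n).toFinset
  have hRR1 : ∀ n, IsT (RR n) := by
    intro n
    by_cases hn : n = 0
    · simp only [RR, if_pos hn]; exact hR
    · simp only [RR, if_neg hn]; exact hA1 _
  have hRR2 : ∀ n, Bal R (RR n) := by
    intro n
    by_cases hn : n = 0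
    · simp only [RR, if_pos hn]; exact Bal.refl _
    · simp only [RR, if_neg hn]; exact hA2 _
  have hRR3 : ∀ n x y, Encodable.encode s(x, y) < n → (RR n x y ↔ s x y) := by
    intro n x y hxy
    have hn : n ≠ 0 := by omega
    simp only [RR, if_neg hn]
    exact hA3 _ x y (by simpa using hxy)
  have hlim := omega_lemma (F := fun n => {e : Sym2 V | Encodable.encode e < n}) (r := RR)
    (s := s) ?_ ?_ ?_
  · have h0 : RR 0 = R := by simp [RR]
    rw [h0] at hlim
    exact hlim.mono (Set.empty_subset _)
  · intro n
    apply FinRev.revA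
    apply finRev_of_bal (hRR1 (n + 1)) _ _ (hRR1 n) ((hRR2 n).symm.trans (hRR2 (n + 1))) _ rfl
    intro u v huv
    have huv' : Encodable.encode s(u, v) < n := huv
    rw [hRR3 n u v huv', hRR3 (n + 1) u v (by omega)]
  · intro e
    exact ⟨Encodable.encode e + 1, fun n hn => by
      show Encodable.encode e < n
      omega⟩
  · intro x y
    exact ⟨Encodable.encode s(x, y) + 1, fun n hn => hRR3 n x y (by omega)⟩

end Pool.Agent.Helper4.ZC
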