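import Mathlib

set_option autoImplicit false

/-! Reversal of directed cycles and two-way infinite directed paths: sequences indexed by
ordinals, and their composition along `ω`. -/

namespace Pool.Agent.Helper4.ZC

open Function Order

universe u

variable {V : Type u}

/-- The orientation obtained from `r` by reversing all the edges in `S`. -/
def reverse (r : V → V → Prop) (S : Set (Sym2 V)) : V → V → Prop :=
  fun x y => (s(x, y) ∈ S ∧ r y x) ∨ (s(x, y) ∉ S ∧ r x y)

/-- `S` is the set of edges of a directed cycle of `r` (on at least two vertices). -/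
def IsCycle (r : V → V → Prop) (S : Set (Sym2 V)) : Prop :=
  ∃ n : ℕ, 2 ≤ n ∧ ∃ p : ZMod n → V, Injective p ∧ (∀ i, r (p i) (p (i + 1))) ∧
    S = Set.range fun i => s(p i, p (i + 1))

/-- `S` is the set of edges of a two-way infinite directed path of `r`. -/
def IsZChain (r : V → V → Prop) (S : Set (Sym2 V)) : Prop :=
  ∃ p : ℤ → V, Injective p ∧ (∀ i, r (p i) (p (i + 1))) ∧
    S = Set.range fun i => s(p i, p (i + 1))

/-- `r'` is the result of a generalized cycle reversion of `r`: a sequence `D` of orientations,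
indexed by the ordinals up to `α`, which starts with `r`, ends with `r'`, reverses the edges of
a directed cycle or of a two-way infinite directed path at every step, and at every limit step
takes the limit, the orientation of every edge being eventually constant. -/
def Reversion (r r' : V → V → Prop) : Prop :=
  ∃ (α : Ordinal.{u}) (D : Ordinal.{u} → V → V → Prop), D 0 = r ∧ D α = r' ∧
    (∀ ξ < α, ∃ S, (IsCycle (D ξ) S ∨ IsZChain (D ξ) S) ∧ D (ξ + 1) = reverse (D ξ) S) ∧
    ∀ l ≤ α, IsSuccLimit l → ∀ x y, ∃ ξ < l, ∀ η, ξ ≤ η → η < l → (D η x y ↔ D l x y)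

/-- The data of a reversion which never reverses an edge of `F`. -/
structure Seq (F : Set (Sym2 V)) (α : Ordinal.{u}) (D : Ordinal.{u} → V → V → Prop) : Prop where
  succ : ∀ ξ < α, ∃ S, (IsCycle (D ξ) S ∨ IsZChain (D ξ) S) ∧ Disjoint S F ∧
    D (ξ + 1) = reverse (D ξ) S
  lim : ∀ l ≤ α, IsSuccLimit l → ∀ x y, ∃ ξ < l, ∀ η, ξ ≤ η → η < l → (D η x y ↔ D l x y)

/-- Reversions which never reverse an edge of `F`. -/
def RevA (F : Set (Sym2 V)) (r r' : V → V → Prop) : Prop :=
  ∃ (α : Ordinal.{u}) (D : Ordinal.{u} → V → V → Prop), D 0 = r ∧ D α = r' ∧ Seq F α D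

theorem RevA.reversion {F : Set (Sym2 V)} {r r' : V → V → Prop} (h : RevA F r r') :
    Reversion r r' := by
  obtain ⟨α, D, h0, h1, h2, h3⟩ := h
  exact ⟨α, D, h0, h1, fun ξ hξ => (h2 ξ hξ).imp fun S hS => ⟨hS.1, hS.2.2⟩, h3⟩

theorem RevA.mono {F F' : Set (Sym2 V)} {r r' : V → V → Prop} (h : RevA F r r') (hF : F' ⊆ F) :
    RevA F' r r' := by
  obtain ⟨α, D, h0, h1, h2, h3⟩ := h
  exact ⟨α, D, h0, h1, fun ξ hξ => (h2 ξ hξ).imp fun S hS =>
    ⟨hS.1, hS.2.1.mono_right hF, hS.2.2⟩, h3⟩

theorem RevA.refl (F : Set (Sym2 V)) (r : V → V → Prop) : RevA F r r :=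
  ⟨0, fun _ => r, rfl, rfl, fun ξ hξ => absurd hξ (not_lt_of_ge (zero_le)),
    fun l hl h => absurd (le_antisymm hl (zero_le)) h.ne_bot⟩

theorem RevA.single {F : Set (Sym2 V)} {r : V → V → Prop} {S : Set (Sym2 V)}
    (h : IsCycle r S ∨ IsZChain r S) (hF : Disjoint S F) : RevA F r (reverse r S) := by
  classical
  refine ⟨1, fun ξ => if ξ = 0 then r else reverse r S, by simp, by simp, ?_, ?_⟩
  · intro ξ hξ
    have h0 : ξ = 0 := by
      rcases eq_or_ne ξ 0 with h0 | h0
      · exact h0
      · exact absurd hξ (not_lt_of_ge (Order.one_le_iff_ne_zero.2 h0))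
    subst h0
    refine ⟨S, by simpa using h, hF, by simp⟩
  · intro l hl hlim
    exact absurd (Ordinal.one_lt_of_isSuccLimit hlim) (not_lt_of_ge hl)

theorem Seq.const {F : Set (Sym2 V)} {α : Ordinal.{u}} {D : Ordinal.{u} → V → V → Prop}
    (h : Seq F α D) {x y : V} (hxy : s(x, y) ∈ F) : ∀ ξ ≤ α, (D ξ x y ↔ D 0 x y) := by
  intro ξ
  induction ξ using Ordinal.limitRecOn with
  | zero => intro _; rfl
  | add_one ξ ih =>
    intro hξ
    have hlt : ξ < α := lt_of_lt_of_le (lt_add_one ξ) hξ
    obtain ⟨S, -, hS, hD⟩ := h.succ ξ hlt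
    rw [hD, ← ih hlt.le]
    have : s(x, y) ∉ S := fun h => Set.disjoint_left.1 hS h hxy
    simp [reverse, this]
  | limit l hl ih =>
    intro hξ
    obtain ⟨ξ, hξl, h1⟩ := h.lim l hξ hl x y
    rw [← h1 ξ le_rfl hξl]
    exact ih ξ hξl (hξl.le.trans hξ)

theorem RevA.agree {F : Set (Sym2 V)} {r r' : V → V → Prop} (h : RevA F r r') {x y : V}
    (hxy : s(x, y) ∈ F) : r' x y ↔ r x y := by
  obtain ⟨α, D, h0, h1, h2⟩ := h
  rw [← h0, ← h1]
  exact h2.const hxy α le_rfl

/-! ### Composition along `ω` -/

section omega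

variable {F : ℕ → Set (Sym2 V)} {r : ℕ → V → V → Prop} {s : V → V → Prop}

/-- Partial sums. -/
def psum (a : ℕ → Ordinal.{u}) : ℕ → Ordinal.{u}
  | 0 => 0
  | n + 1 => psum a n + a n

theorem psum_mono (a : ℕ → Ordinal.{u}) : Monotone (psum a) :=
  monotone_nat_of_le_succ fun _ => le_self_add

theorem omega_lemma (h : ∀ n, RevA (F n) (r n) (r (n + 1)))
    (hF : ∀ e, ∃ N, ∀ n, N ≤ n → e ∈ F n)
    (hs : ∀ x y, ∃ N, ∀ n, N ≤ n → (r n x y ↔ s x y)) :
    RevA (⋂ n, F n) (r 0) s := by
  classical
  choose a D h0 h1 h2 using h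
  let P := psum a
  have hP0 : P 0 = 0 := rfl
  have hPs : ∀ n, P (n + 1) = P n + a n := fun _ => rfl
  have hmono : Monotone P := psum_mono a
  let E : Ordinal.{u} → V → V → Prop := fun ξ =>
    if h : ∃ n, ξ < P (n + 1) then D (Nat.find h) (ξ - P (Nat.find h)) else s
  -- the value of `E` strictly inside a block
  have hElt : ∀ n β, β < a n → E (P n + β) = D n β := by
    intro n β hβ
    have hex : ∃ m, P n + β < P (m + 1) := ⟨n, by rw [hPs]; exact (add_lt_add_iff_left _).2 hβ⟩
    have hfind : Nat.find hex = n := by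
      apply (Nat.find_eq_iff hex).2
      refine ⟨by rw [hPs]; exact (add_lt_add_iff_left _).2 hβ, fun m hm => ?_⟩
      rw [not_lt]
      exact (hmono (show m + 1 ≤ n by omega)).trans le_self_add
    simp only [E, dif_pos hex, hfind]
    rw [Ordinal.add_sub_cancel]
  -- the value of `E` at the ends of the blocks
  have hrconst : ∀ n m, n ≤ m → P m ≤ P n → r m = r n := by
    intro n m hnm hle
    induction m, hnm using Nat.le_induction with
    | base => rfl
    | succ m hnm ih =>
      have h3 : P m ≤ P n := (hmono (Nat.le_succ m)).trans hle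
      have h4 : P n ≤ P m := hmono hnm
      have h5 : a m = 0 := by
        have h6 : P m + a m ≤ P m + 0 := by
          rw [add_zero, ← hPs]
          exact hle.trans h4
        have h7 := (add_le_add_iff_left _).1 h6
        exact le_antisymm h7 (zero_le)
      rw [← ih h3, ← h1 m, h5, h0]
  have hEend : ∀ n, E (P n) = r n := by
    intro n
    by_cases hex : ∃ m, P n < P (m + 1)
    · have hspec := Nat.find_spec hex
      set m := Nat.find hex with hm
      have hnm : n ≤ m := by
        by_contra hlt
        push Not at hlt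
        exact absurd hspec (not_lt_of_ge (hmono (show m + 1 ≤ n by omega)))
      have hPm : P m ≤ P n := by
        rcases Nat.eq_zero_or_pos m with h3 | h3
        · have : n = 0 := by omega
          rw [h3, this]
        · have h4 := Nat.find_min hex (show m - 1 < Nat.find hex by omega)
          rw [not_lt] at h4
          have h5 : m - 1 + 1 = m := by omega
          rwa [h5] at h4
      have hr := hrconst n m hnm hPm
      have hPeq : P n = P m := le_antisymm (hmono hnm) hPm
      have ha : 0 < a m := by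
        rcases eq_or_ne (a m) 0 with h5 | h5
        · rw [hPs, h5, add_zero, hPeq] at hspec
          exact absurd hspec (lt_irrefl _)
        · exact pos_iff_ne_zero.2 h5
      have := hElt m 0 ha
      rw [add_zero, ← hPeq, h0, hr] at this
      exact this
    · have hE : E (P n) = s := by simp only [E, dif_neg hex]
      rw [hE]
      push Not at hex
      have hconst : ∀ m, n ≤ m → r m = r n := by
        intro m hm
        apply hrconst n m hm
        rcases Nat.eq_zero_or_pos m with h3 | h3
        · rw [h3, hP0]; exact zero_le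
        · have := hex (m - 1)
          have h5 : m - 1 + 1 = m := by omega
          rwa [h5] at this
      ext x y
      obtain ⟨N, hN⟩ := hs x y
      rw [← hN (max N n) (le_max_left _ _), hconst _ (le_max_right _ _)]
  have hEle : ∀ n β, β ≤ a n → E (P n + β) = D n β := by
    intro n β hβ
    rcases hβ.lt_or_eq with h3 | h3
    · exact hElt n β h3
    · rw [h3, ← hPs, hEend, h1]
  refine ⟨⨆ n, P n, E, ?_, ?_, ?_, ?_⟩
  · have := hEend 0
    rwa [hP0] at this
  · have hex : ¬ ∃ n, (⨆ n, P n) < P (n + 1) := by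
      push Not
      intro n
      exact Ordinal.le_iSup P (n + 1)
    simp only [E, dif_neg hex]
  · intro ξ hξ
    have hex : ∃ n, ξ < P n := Ordinal.lt_iSup_iff.1 hξ
    have hspec := Nat.find_spec hex
    set m := Nat.find hex with hm
    have hm0 : m ≠ 0 := by
      intro h3
      rw [h3, hP0] at hspec
      exact absurd hspec (not_lt_of_ge (zero_le))
    obtain ⟨n, hn⟩ := Nat.exists_eq_succ_of_ne_zero hm0
    have hle : P n ≤ ξ := by
      have := Nat.find_min hex (show n < Nat.find hex by omega)
      rwa [not_lt] at this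
    rw [hn, Nat.succ_eq_add_one, hPs] at hspec
    obtain ⟨β, rfl⟩ : ∃ β, ξ = P n + β := ⟨ξ - P n, (Ordinal.add_sub_cancel_of_le hle).symm⟩
    have hβ : β < a n := (add_lt_add_iff_left _).1 hspec
    obtain ⟨S, hS1, hS2, hS3⟩ := (h2 n).succ β hβ
    refine ⟨S, ?_, ?_, ?_⟩
    · rw [hElt n β hβ]; exact hS1
    · exact hS2.mono_right (Set.iInter_subset _ _)
    · rw [add_assoc, hEle n (β + 1) (Order.add_one_le_of_lt hβ), hElt n β hβ]
      exact hS3
  · intro l hl hlim x y
    by_cases hex : ∃ n, l ≤ P n
    · have hspec := Nat.find_spec hex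
      set m := Nat.find hex with hm
      have hl0 : 0 < l := pos_iff_ne_zero.2 hlim.ne_bot
      have hm0 : m ≠ 0 := by
        intro h3
        rw [h3, hP0] at hspec
        exact absurd hl0 (not_lt_of_ge hspec)
      obtain ⟨n, hn⟩ := Nat.exists_eq_succ_of_ne_zero hm0
      have hle : P n < l := by
        have := Nat.find_min hex (show n < Nat.find hex by omega)
        rwa [not_le] at this
      rw [hn, Nat.succ_eq_add_one, hPs] at hspec
      obtain ⟨β, rfl⟩ : ∃ β, l = P n + β := ⟨l - P n, (Ordinal.add_sub_cancel_of_le hle.le).symm⟩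
      have hβ : β ≤ a n := (add_le_add_iff_left _).1 hspec
      have hβlim : IsSuccLimit β := by
        rcases (Ordinal.isSuccLimit_add_iff).1 hlim with h3 | h3
        · exact h3
        · rw [h3.1, add_zero] at hle
          exact absurd hle (lt_irrefl _)
      obtain ⟨ξ, hξ, h3⟩ := (h2 n).lim β hβ hβlim x y
      refine ⟨P n + ξ, (add_lt_add_iff_left _).2 hξ, fun η hη1 hη2 => ?_⟩
      obtain ⟨γ, rfl⟩ : ∃ γ, η = P n + γ :=
        ⟨η - P n, (Ordinal.add_sub_cancel_of_le (le_self_add.trans hη1)).symm⟩
      have hγ1 : ξ ≤ γ := (add_le_add_iff_left _).1 hη1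
      have hγ2 : γ < β := (add_lt_add_iff_left _).1 hη2
      rw [hElt n γ (hγ2.trans_le hβ), hEle n β hβ]
      exact h3 γ hγ1 hγ2
    · push Not at hex
      have hEl : E l = s := by
        have : ¬ ∃ n, l < P (n + 1) := by
          push Not
          exact fun n => (hex (n + 1)).le
        simp only [E, dif_neg this]
      obtain ⟨N1, hN1⟩ := hs x y
      obtain ⟨N2, hN2⟩ := hF s(x, y)
      refine ⟨P (max N1 N2), hex _, fun η hη1 hη2 => ?_⟩
      rw [hEl]
      have hex2 : ∃ n, η < P n := Ordinal.lt_iSup_iff.1 (hη2.trans_le hl)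
      have hspec := Nat.find_spec hex2
      set m := Nat.find hex2 with hm
      have hm1 : max N1 N2 < m := by
        by_contra hlt
        push Not at hlt
        exact absurd hspec (not_lt_of_ge ((hmono hlt).trans hη1))
      obtain ⟨n, hn⟩ := Nat.exists_eq_succ_of_ne_zero (show m ≠ 0 by omega)
      have hle : P n ≤ η := by
        have := Nat.find_min hex2 (show n < Nat.find hex2 by omega)
        rwa [not_lt] at this
      rw [hn, Nat.succ_eq_add_one, hPs] at hspec
      obtain ⟨β, rfl⟩ : ∃ β, η = P n + β := ⟨η - P n, (Ordinal.add_sub_cancel_of_le hle).symm⟩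
      have hβ : β < a n := (add_lt_add_iff_left _).1 hspec
      have hn1 : N1 ≤ n := by have := le_max_left N1 N2; omega
      have hn2 : N2 ≤ n := by have := le_max_right N1 N2; omega
      rw [hElt n β hβ, (h2 n).const (hN2 n hn2) β hβ.le, h0, hN1 n hn1]

end omega

theorem RevA.trans {F F' : Set (Sym2 V)} {r r' r'' : V → V → Prop} (h : RevA F r r')
    (h' : RevA F' r' r'') : RevA (F ∩ F') r r'' := by
  have := omega_lemma (F := fun n => if n = 0 then F else if n = 1 then F' else Set.univ)
    (r := fun n => if n = 0 then r else if n = 1 then r' else r'') (s := r'') ?_ ?_ ?_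
  · refine this.mono ?_
    intro e he
    simp only [Set.mem_iInter]
    intro n
    rcases n with _ | _ | n
    · simpa using he.1
    · simpa using he.2
    · simp
  · intro n
    rcases n with _ | _ | n
    · simpa using h
    · simpa using h'
    · simpa using RevA.refl _ _
  · intro e
    refine ⟨2, fun n hn => ?_⟩
    have h1 : n ≠ 0 := by omega
    have h2 : n ≠ 1 := by omega
    simp [h1, h2]
  · intro x y
    refine ⟨2, fun n hn => ?_⟩
    have h1 : n ≠ 0 := by omega
    have h2 : n ≠ 1 := by omega
    simp [h1, h2]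

theorem RevA.trans' {F : Set (Sym2 V)} {r r' r'' : V → V → Prop} (h : RevA F r r')
    (h' : RevA F r' r'') : RevA F r r'' := by
  simpa using h.trans h'

end Pool.Agent.Helper4.ZC
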