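import Pool.Agent.Helper4.ZC.Flip

set_option autoImplicit false

/-! A set of edges with infinite in- and out-degrees decomposes into two-way infinite paths. -/

namespace Pool.Agent.Helper4.ZC

open Function Order

universe u

variable {V : Type u}

/-- Every vertex incident with `G` has infinitely many in-edges and out-edges in `G`. -/
def Rich (r : V → V → Prop) (G : Set (Sym2 V)) : Prop :=
  ∀ x y, s(x, y) ∈ G → x ≠ y ∧
    {w | s(x, w) ∈ G ∧ r x w}.Infinite ∧ {w | s(w, x) ∈ G ∧ r w x}.Infinite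

/-- A two-way infinite path through a given edge of a rich set. -/
theorem exists_chain {r : V → V → Prop} (hr : IsT r) {G : Set (Sym2 V)} (hG : Rich r G)
    {x₀ x₁ : V} (h01 : r x₀ x₁) (hmem : s(x₀, x₁) ∈ G) :
    ∃ p : ℤ → V, Injective p ∧ (∀ i, r (p i) (p (i + 1))) ∧ (∀ i, s(p i, p (i + 1)) ∈ G) ∧
      ∃ i, s(p i, p (i + 1)) = s(x₀, x₁) := by
  classical
  -- the set of vertices incident with `G`
  let X : Set V := {x | ∃ y, s(x, y) ∈ G}
  have hX1 : ∀ {x y}, s(x, y) ∈ G → x ∈ X := fun h => ⟨_, h⟩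
  have hX2 : ∀ {x y}, s(x, y) ∈ G → y ∈ X := fun {x y} h => ⟨x, by rwa [Sym2.eq_swap]⟩
  -- next vertices
  have hf : ∀ (x : X) (s : Finset V), ∃ y : X, s((x : V), (y : V)) ∈ G ∧ r x y ∧ (y : V) ∉ s := by
    intro x s
    obtain ⟨y, hy⟩ := x.2
    obtain ⟨w, hw, hws⟩ := (hG x y hy).2.1.exists_notMem_finset s
    exact ⟨⟨w, hX2 hw.1⟩, hw.1, hw.2, hws⟩
  have hb : ∀ (x : X) (s : Finset V), ∃ y : X, s((y : V), (x : V)) ∈ G ∧ r y x ∧ (y : V) ∉ s := by
    intro x s
    obtain ⟨y, hy⟩ := x.2
    obtain ⟨w, hw, hws⟩ := (hG x y hy).2.2.exists_notMem_finset s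
    exact ⟨⟨w, hX1 hw.1⟩, hw.1, hw.2, hws⟩
  choose nf hf1 hf2 hf3 using hf
  choose nb hb1 hb2 hb3 using hb
  -- the states: used vertices, front, back
  let step : Finset V × X × X → Finset V × X × X := fun t =>
    let a' := nf t.2.1 t.1
    let b' := nb t.2.2 (insert (a' : V) t.1)
    (insert (b' : V) (insert (a' : V) t.1), a', b')
  let st : ℕ → Finset V × X × X := fun n =>
    step^[n] (({x₀, x₁} : Finset V), (⟨x₁, hX2 hmem⟩ : X), (⟨x₀, hX1 hmem⟩ : X))
  have hst0 : st 0 = (({x₀, x₁} : Finset V), (⟨x₁, hX2 hmem⟩ : X), (⟨x₀, hX1 hmem⟩ : X)) := rfl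
  have hst : ∀ n, st (n + 1) = step (st n) := fun n => by
    simp only [st, iterate_succ_apply']
  let S : ℕ → Finset V := fun n => (st n).1
  let a : ℕ → V := fun n => (st n).2.1
  let b : ℕ → V := fun n => (st n).2.2
  have ha0 : a 0 = x₁ := rfl
  have hb0 : b 0 = x₀ := rfl
  have hS0 : S 0 = {x₀, x₁} := rfl
  have haS' : ∀ n, a (n + 1) ∉ S n := fun n => by
    simp only [a, hst]; exact hf3 _ _
  have hbS'' : ∀ n, b (n + 1) ∉ insert (a (n + 1)) (S n) := fun n => by
    simp only [a, b, hst]; exact hb3 _ _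
  have hSs : ∀ n, S (n + 1) = insert (b (n + 1)) (insert (a (n + 1)) (S n)) := fun n => by
    simp only [S, a, b, hst]; rfl
  have haG : ∀ n, s(a n, a (n + 1)) ∈ G := fun n => by
    simp only [a, hst]; exact hf1 _ _
  have har : ∀ n, r (a n) (a (n + 1)) := fun n => by
    simp only [a, hst]; exact hf2 _ _
  have hbG : ∀ n, s(b (n + 1), b n) ∈ G := fun n => by
    simp only [b, hst]; exact hb1 _ _
  have hbr : ∀ n, r (b (n + 1)) (b n) := fun n => by
    simp only [b, hst]; exact hb2 _ _
  have hmono : Monotone S := monotone_nat_of_le_succ fun n => by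
    rw [hSs]
    exact (Finset.subset_insert _ _).trans (Finset.subset_insert _ _)
  have haS : ∀ n, a n ∈ S n := by
    intro n
    cases n with
    | zero => rw [ha0, hS0]; simp
    | succ n => rw [hSs]; simp
  have hbS : ∀ n, b n ∈ S n := by
    intro n
    cases n with
    | zero => rw [hb0, hS0]; simp
    | succ n => rw [hSs]; simp
  have hbS' : ∀ n, b (n + 1) ∉ S n := fun n h => hbS'' n (Finset.mem_insert_of_mem h)
  have hne01 : x₀ ≠ x₁ := hr.ne h01
  have hab : ∀ n, a n ≠ b n := by
    intro n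
    cases n with
    | zero => rw [ha0, hb0]; exact hne01.symm
    | succ n => intro h; exact hbS'' n (by rw [h]; exact Finset.mem_insert_self _ _)
  have key : ∀ (c d : ℕ → V), (∀ n, c n ∈ S n) → (∀ n, d (n + 1) ∉ S n) →
      ∀ m n, m < n → c m ≠ d n := by
    intro c d hc hd m n hmn h
    obtain ⟨k, rfl⟩ : ∃ k, n = k + 1 := ⟨n - 1, by omega⟩
    apply hd k
    rw [← h]
    exact hmono (show m ≤ k by omega) (hc m)
  have hainj : ∀ m n, a m = a n → m = n := by
    intro m n h
    rcases lt_trichotomy m n with h1 | h1 | h1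
    · exact absurd h (key a a haS haS' m n h1)
    · exact h1
    · exact absurd h.symm (key a a haS haS' n m h1)
  have hbinj : ∀ m n, b m = b n → m = n := by
    intro m n h
    rcases lt_trichotomy m n with h1 | h1 | h1
    · exact absurd h (key b b hbS hbS' m n h1)
    · exact h1
    · exact absurd h.symm (key b b hbS hbS' n m h1)
  have habne : ∀ m n, a m ≠ b n := by
    intro m n h
    rcases lt_trichotomy m n with h1 | h1 | h1
    · exact key a b haS hbS' m n h1 h
    · rw [h1] at h; exact hab n h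
    · exact key b a hbS haS' n m h1 h.symm
  let p : ℤ → V := fun i => match i with
    | Int.ofNat n => a n
    | Int.negSucc n => b n
  have hp1 : ∀ n : ℕ, p (Int.ofNat n) = a n := fun _ => rfl
  have hp2 : ∀ n : ℕ, p (Int.negSucc n) = b n := fun _ => rfl
  have hstep1 : ∀ n : ℕ, (Int.ofNat n : ℤ) + 1 = Int.ofNat (n + 1) := fun n => rfl
  have hstep2 : ∀ n : ℕ, (Int.negSucc (n + 1) : ℤ) + 1 = Int.negSucc n := fun n => rfl
  have hstep3 : (Int.negSucc 0 : ℤ) + 1 = Int.ofNat 0 := rfl
  refine ⟨p, ?_, ?_, ?_, ?_⟩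
  · intro i j hij
    rcases i with i | i <;> rcases j with j | j
    · rw [hp1, hp1] at hij; rw [hainj _ _ hij]
    · rw [hp1, hp2] at hij; exact absurd hij (habne _ _)
    · rw [hp1, hp2] at hij; exact absurd hij.symm (habne _ _)
    · rw [hp2, hp2] at hij; rw [hbinj _ _ hij]
  · intro i
    rcases i with i | i
    · rw [hstep1, hp1, hp1]; exact har i
    · rcases i with _ | i
      · rw [hstep3, hp1, hp2, ha0, hb0]; exact h01
      · rw [hstep2, hp2, hp2]; exact hbr i
  · intro i
    rcases i with i | i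
    · rw [hstep1, hp1, hp1]; exact haG i
    · rcases i with _ | i
      · rw [hstep3, hp1, hp2, ha0, hb0]; exact hmem
      · rw [hstep2, hp2, hp2]; exact hbG i
  · refine ⟨Int.negSucc 0, ?_⟩
    rw [hstep3, hp1, hp2, ha0, hb0]

/-- The neighbours of a vertex on a path. -/
theorem finite_nbrs {p : ℤ → V} (hp : Injective p) (x : V) :
    {w | s(x, w) ∈ Set.range fun i => s(p i, p (i + 1))}.Finite := by
  by_cases hx : ∃ i, p i = x
  · obtain ⟨i, rfl⟩ := hx
    refine (Set.toFinite {p (i + 1), p (i - 1)}).subset ?_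
    rintro w ⟨j, hj⟩
    simp only [Sym2.eq_iff] at hj
    rcases hj with ⟨h1, h2⟩ | ⟨h1, h2⟩
    · rw [hp h1] at h2
      left; exact h2.symm
    · right
      have h3 : j + 1 = i := hp h2
      have h4 : j = i - 1 := by omega
      rw [← h1, h4]; rfl
  · have : {w | s(x, w) ∈ Set.range fun i => s(p i, p (i + 1))} = ∅ := by
      rw [Set.eq_empty_iff_forall_notMem]
      rintro w ⟨j, hj⟩
      simp only [Sym2.eq_iff] at hj
      rcases hj with ⟨h1, h2⟩ | ⟨h1, h2⟩
      · exact hx ⟨_, h1⟩
      · exact hx ⟨_, h2⟩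
    rw [this]
    exact Set.finite_empty

/-- A rich set of edges can be reversed. -/
theorem reverse_rich [Countable V] {r : V → V → Prop} (hr : IsT r) (G : Set (Sym2 V))
    (hG : Rich r G) : RevA ∅ r (reverse r G) := by
  classical
  have : Encodable V := Encodable.ofCountable V
  have : Countable (Sym2 V) := inferInstance
  have : Encodable (Sym2 V) := Encodable.ofCountable (Sym2 V)
  -- one step: given a rich subset and a number, remove a path
  have hstep : ∀ (n : ℕ) (G' : {G' : Set (Sym2 V) // Rich r G'}),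
      ∃ G'' : {G' : Set (Sym2 V) // Rich r G'},
      G''.1 ⊆ G'.1 ∧ (∀ e ∈ G''.1, Encodable.encode e ≠ n) ∧
      (G''.1 = G'.1 ∨ IsZChain r (G'.1 \ G''.1)) := by
    intro n G'
    by_cases hex : ∃ e ∈ G'.1, Encodable.encode e = n
    · obtain ⟨e, heG, hen⟩ := hex
      have hedge : ∃ x₀ x₁, r x₀ x₁ ∧ s(x₀, x₁) = e := by
        induction e using Sym2.inductionOn with
        | hf x y =>
          have hxy : x ≠ y := (G'.2 x y heG).1
          by_cases h : r x y
          · exact ⟨x, y, h, rfl⟩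
          · exact ⟨y, x, hr.of_not hxy.symm h, Sym2.eq_swap⟩
      obtain ⟨x₀, x₁, h01, h01e⟩ := hedge
      obtain ⟨p, hp1, hp2, hp3, hp4⟩ := exists_chain hr G'.2 h01 (by rw [h01e]; exact heG)
      have hfin := finite_nbrs hp1
      set R := Set.range fun i => s(p i, p (i + 1)) with hR
      have hRG : R ⊆ G'.1 := by
        rintro _ ⟨i, rfl⟩
        exact hp3 i
      have hrich : Rich r (G'.1 \ R) := by
        intro x y hxy
        obtain ⟨h1, h2, h3⟩ := G'.2 x y hxy.1
        refine ⟨h1, ?_, ?_⟩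
        · refine (h2.sdiff (hfin x)).mono ?_
          rintro w ⟨⟨h4, h5⟩, h6⟩
          exact ⟨⟨h4, h6⟩, h5⟩
        · refine (h3.sdiff (hfin x)).mono ?_
          rintro w ⟨⟨h4, h5⟩, h6⟩
          refine ⟨⟨h4, fun h7 => h6 ?_⟩, h5⟩
          rw [Sym2.eq_swap] at h7
          exact h7
      refine ⟨⟨G'.1 \ R, hrich⟩, Set.sdiff_subset, ?_, Or.inr ?_⟩
      · rintro e' ⟨he', he''⟩ h
        have h7 : e' = e := Encodable.encode_injective (h.trans hen.symm)
        rw [h7, ← h01e] at he''
        apply he''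
        obtain ⟨i, hi⟩ := hp4
        exact ⟨i, hi⟩
      · refine ⟨p, hp1, hp2, ?_⟩
        rw [← hR]
        simp only [sdiff_sdiff_right_self, Set.inf_eq_inter]
        exact Set.inter_eq_right.2 hRG
    · push Not at hex
      exact ⟨G', subset_rfl, hex, Or.inl rfl⟩
  choose nx hnx1 hnx2 hnx3 using hstep
  let GG : ℕ → {G' : Set (Sym2 V) // Rich r G'} := fun n => Nat.rec ⟨G, hG⟩ (fun k G' => nx k G') n
  have hGG0 : (GG 0).1 = G := rfl
  have hGGs : ∀ n, GG (n + 1) = nx n (GG n) := fun _ => rfl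
  have hanti : Antitone fun n => (GG n).1 := antitone_nat_of_succ_le fun n => by
    simp only [hGGs]; exact hnx1 _ _
  have hsub : ∀ n, (GG n).1 ⊆ G := fun n => by
    rw [← hGG0]; exact hanti (Nat.zero_le n)
  have hout : ∀ e n, Encodable.encode e < n → e ∉ (GG n).1 := by
    intro e n hn he
    have h1 : e ∈ (GG (Encodable.encode e + 1)).1 :=
      hanti (show Encodable.encode e + 1 ≤ n by omega) he
    rw [hGGs] at h1
    exact hnx2 _ _ e h1 rfl
  have hlim := omega_lemma (F := fun n => ((GG n).1)ᶜ) (r := fun n => reverse r (G \ (GG n).1))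
    (s := reverse r G) ?_ ?_ ?_
  · simp only [hGG0, Set.sdiff_self, reverse_empty] at hlim
    exact hlim.mono (Set.empty_subset _)
  · intro n
    rcases hnx3 n (GG n) with h | h
    · have h1 : (GG (n + 1)).1 = (GG n).1 := by rw [hGGs]; exact h
      rw [h1]
      exact RevA.refl _ _
    · rw [← hGGs] at h
      have hsub2 : (GG (n + 1)).1 ⊆ (GG n).1 := hanti (Nat.le_succ n)
      have h2 : reverse r (G \ (GG (n + 1)).1) =
          reverse (reverse r (G \ (GG n).1)) ((GG n).1 \ (GG (n + 1)).1) := by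
        rw [reverse_reverse]
        congr 1
        ext e
        simp only [Set.mem_symmDiff, Set.mem_sdiff]
        have h3 := @hsub n e
        have h4 := @hsub2 e
        tauto
      rw [h2]
      apply RevA.single
      · right
        obtain ⟨p, hp1, hp2, hp3⟩ := h
        refine ⟨p, hp1, fun i => ?_, hp3⟩
        refine (reverse_of_notMem ?_).2 (hp2 i)
        rintro ⟨-, h5⟩
        apply h5
        have h6 : s(p i, p (i + 1)) ∈ (GG n).1 \ (GG (n + 1)).1 := by
          rw [hp3]; exact ⟨i, rfl⟩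
        exact h6.1
      · rw [Set.disjoint_compl_right_iff_subset]
        exact Set.sdiff_subset
  · intro e
    exact ⟨Encodable.encode e + 1, fun n hn => hout e n (by omega)⟩
  · intro x y
    refine ⟨Encodable.encode s(x, y) + 1, fun n hn => ?_⟩
    have h1 := hout s(x, y) n (by omega)
    by_cases h : s(x, y) ∈ G
    · rw [reverse_of_mem h, reverse_of_mem (show s(x, y) ∈ G \ (GG n).1 from ⟨h, h1⟩)]
    · rw [reverse_of_notMem h, reverse_of_notMem (fun h2 => h h2.1)]

end Pool.Agent.Helper4.ZC
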