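import Pool.Agent.Helper4.ZC.Bal

set_option autoImplicit false

/-! Two-colourings without monochromatic cycles, from tournaments with the largest possible number
of forward edges. -/

namespace Pool.Agent.Helper4.ZC

open Function Order

universe u

variable {V : Type u}

/-- The weight of an edge: `1` if forward, `-1` if backward. -/
def wt (e : V → ℕ) (x y : V) : ℤ := if e x < e y then 1 else -1

/-- The number of forward edges among the vertices of index less than `n`. -/
noncomputable def Phi (e : V → ℕ) (n : ℕ) (R : V → V → Prop) : ℕ :=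
  {q : V × V | e q.1 < e q.2 ∧ e q.2 < n ∧ R q.1 q.2}.ncard

theorem finite_pairs {e : V → ℕ} (he : Injective e) (n : ℕ) (R : V → V → Prop) :
    {q : V × V | e q.1 < e q.2 ∧ e q.2 < n ∧ R q.1 q.2}.Finite := by
  have h1 : {x : V | e x < n}.Finite :=
    Set.Finite.preimage (f := e) he.injOn (Set.finite_lt_nat n)
  refine (h1.prod h1).subset ?_
  rintro ⟨x, y⟩ ⟨h2, h3, -⟩
  exact ⟨h2.trans h3, h3⟩

theorem Phi_le {e : V → ℕ} (he : Injective e) (n : ℕ) (R : V → V → Prop) :
    Phi e n R ≤ Phi e n (fun _ _ => True) :=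
  Set.ncard_le_ncard (fun _ hq => ⟨hq.1, hq.2.1, trivial⟩) (finite_pairs he n (fun _ _ => True))

/-- The weight of a cycle is nonnegative if its reversal does not produce more forward edges. -/
theorem weight_nonneg {e : V → ℕ} (he : Injective e) {n : ℕ} {R : V → V → Prop} (hR : IsT R)
    (hmax : ∀ S, IsCycle R S → Phi e n (reverse R S) ≤ Phi e n R) (k : ℕ) (hk : 1 ≤ k)
    (q : ℕ → V) (hinj : ∀ i ≤ k, ∀ j ≤ k, q i = q j → i = j) (hq : ∀ i < k, R (q i) (q (i + 1)))
    (hc : R (q k) (q 0)) (hn : ∀ i ≤ k, e (q i) < n) :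
    0 ≤ ∑ i ∈ Finset.range k, wt e (q i) (q (i + 1)) + wt e (q k) (q 0) := by
  classical
  have hcyc := isCycle_of_path k hk q hinj hq hc
  set S : Set (Sym2 V) := {e | (∃ i < k, e = s(q i, q (i + 1))) ∨ e = s(q k, q 0)} with hS
  have hle := hmax S hcyc
  let nxt : ℕ → ℕ := fun i => if i = k then 0 else i + 1
  have hnxt : ∀ i ≤ k, nxt i ≤ k := by
    intro i hi
    simp only [nxt]
    split_ifs <;> omega
  have hRn : ∀ i ≤ k, R (q i) (q (nxt i)) := by
    intro i hi
    by_cases h : i = k
    · simp only [nxt, h]; exact hc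
    · simp only [nxt, if_neg h]; exact hq i (by omega)
  have hSn : ∀ i ≤ k, s(q i, q (nxt i)) ∈ S := by
    intro i hi
    by_cases h : i = k
    · simp only [nxt, h]; exact Or.inr rfl
    · simp only [nxt, if_neg h]; exact Or.inl ⟨i, by omega, rfl⟩
  have hSn' : ∀ f ∈ S, ∃ i ≤ k, f = s(q i, q (nxt i)) := by
    rintro f (⟨i, hi, rfl⟩ | rfl)
    · exact ⟨i, by omega, by simp only [nxt, if_neg (show i ≠ k by omega)]⟩
    · exact ⟨k, le_rfl, by simp only [nxt, if_true]⟩
  let P : ℕ → V × V := fun i => (q i, q (nxt i))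
  let If := (Finset.range (k + 1)).filter fun i => e (q i) < e (q (nxt i))
  let Ib := (Finset.range (k + 1)).filter fun i => ¬ e (q i) < e (q (nxt i))
  have hsum : ∑ i ∈ Finset.range k, wt e (q i) (q (i + 1)) + wt e (q k) (q 0) =
      (If.card : ℤ) - Ib.card := by
    have h1 : ∑ i ∈ Finset.range k, wt e (q i) (q (i + 1)) + wt e (q k) (q 0) =
        ∑ i ∈ Finset.range (k + 1), wt e (q i) (q (nxt i)) := by
      rw [Finset.sum_range_succ]
      congr 1
      · refine Finset.sum_congr rfl fun i hi => ?_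
        rw [Finset.mem_range] at hi
        simp only [nxt, if_neg (show i ≠ k by omega)]
      · simp only [nxt, if_true]
    rw [h1]
    unfold wt
    rw [Finset.sum_ite]
    simp [If, Ib, sub_eq_add_neg]
  rw [hsum]
  have hPinj : ∀ i ≤ k, ∀ j ≤ k, P i = P j → i = j := fun i hi j hj h =>
    hinj i hi j hj (congrArg Prod.fst h)
  set A := {q : V × V | e q.1 < e q.2 ∧ e q.2 < n ∧ R q.1 q.2} with hA
  set A' := {q : V × V | e q.1 < e q.2 ∧ e q.2 < n ∧ reverse R S q.1 q.2} with hA'
  have hAfin : A.Finite := finite_pairs he n _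
  have hA'fin : A'.Finite := finite_pairs he n _
  let Cf : Finset (V × V) := If.image P
  let Cb : Finset (V × V) := Ib.image fun i => (P i).swap
  have hCf : Cf.card = If.card := by
    apply Finset.card_image_of_injOn
    intro i hi j hj h
    simp only [If, Finset.coe_filter, Finset.mem_range, Set.mem_ofPred_eq] at hi hj
    exact hPinj i (by omega) j (by omega) h
  have hCb : Cb.card = Ib.card := by
    apply Finset.card_image_of_injOn
    intro i hi j hj h
    simp only [Ib, Finset.coe_filter, Finset.mem_range, Set.mem_ofPred_eq] at hi hj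
    exact hPinj i (by omega) j (by omega) (Prod.swap_injective h)
  have hCfA : (Cf : Set (V × V)) ⊆ A := by
    intro a ha
    simp only [Cf, Finset.coe_image, Set.mem_image, If, Finset.coe_filter, Finset.mem_range,
      Set.mem_ofPred_eq] at ha
    obtain ⟨i, ⟨hi, hlt⟩, rfl⟩ := ha
    exact ⟨hlt, hn _ (hnxt i (by omega)), hRn i (by omega)⟩
  have hsub : (A \ Cf) ∪ Cb ⊆ A' := by
    rintro ⟨a, b⟩ (⟨⟨h1, h2, h3⟩, h4⟩ | h)
    · refine ⟨h1, h2, ?_⟩
      simp only at h1 h2 h3
      rw [reverse_of_notMem]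
      · exact h3
      · intro h5
        obtain ⟨i, hi, h6⟩ := hSn' _ h5
        rw [Sym2.eq_iff] at h6
        rcases h6 with ⟨rfl, rfl⟩ | ⟨rfl, rfl⟩
        · apply h4
          simp only [Cf, Finset.coe_image, Set.mem_image, If, Finset.coe_filter, Finset.mem_range,
            Set.mem_ofPred_eq]
          exact ⟨i, ⟨by omega, h1⟩, rfl⟩
        · exact hR.asymm h3 (hRn i hi)
    · simp only [Cb, Finset.coe_image, Set.mem_image, Ib, Finset.coe_filter, Finset.mem_range,
        Set.mem_ofPred_eq, P, Prod.swap_prod_mk, Prod.mk.injEq] at h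
      obtain ⟨i, ⟨hi, hlt⟩, rfl, rfl⟩ := h
      have hne : e (q i) ≠ e (q (nxt i)) := fun h => hR.ne (hRn i (by omega)) (he h)
      refine ⟨?_, hn i (by omega), ?_⟩
      · show e (q (nxt i)) < e (q i)
        omega
      · show reverse R S (q (nxt i)) (q i)
        rw [reverse_of_mem (by rw [Sym2.eq_swap]; exact hSn i (by omega))]
        exact hRn i (by omega)
  have hdisj : Disjoint (A \ Cf) (Cb : Set (V × V)) := by
    rw [Set.disjoint_left]
    rintro ⟨a, b⟩ ⟨⟨h1, h2, h3⟩, -⟩ h
    simp only [Cb, Finset.coe_image, Set.mem_image, Ib, Finset.coe_filter, Finset.mem_range,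
        Set.mem_ofPred_eq, P, Prod.swap_prod_mk, Prod.mk.injEq] at h
    obtain ⟨i, ⟨hi, hlt⟩, rfl, rfl⟩ := h
    exact hR.asymm h3 (hRn i (by omega))
  have h1 : ((A \ Cf) ∪ Cb).ncard ≤ A'.ncard := Set.ncard_le_ncard hsub hA'fin
  have h2 : ((A \ Cf) ∪ Cb).ncard = (A \ Cf).ncard + (Cb : Set (V × V)).ncard :=
    Set.ncard_union_eq hdisj (hAfin.subset Set.sdiff_subset) (Finset.finite_toSet _)
  have h3 : (A \ Cf).ncard + (Cf : Set (V × V)).ncard = A.ncard :=
    Set.ncard_sdiff_add_ncard_of_subset hCfA hAfin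
  rw [Set.ncard_coe_finset] at h2 h3
  have h4 : A'.ncard ≤ A.ncard := hle
  have h5 : Ib.card ≤ If.card := by omega
  have h6 : (Ib.card : ℤ) ≤ If.card := by exact_mod_cast h5
  omega

/-- Weights of paths inside `{e < n}` which end at `v`. -/
def pathWt (e : V → ℕ) (n : ℕ) (R : V → V → Prop) (v : V) : Set ℤ :=
  {z | ∃ (m : ℕ) (q : ℕ → V), (∀ i ≤ m, ∀ j ≤ m, q i = q j → i = j) ∧
    (∀ i < m, R (q i) (q (i + 1))) ∧ (∀ i ≤ m, e (q i) < n) ∧ q m = v ∧
    z = ∑ i ∈ Finset.range m, wt e (q i) (q (i + 1))}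

theorem neg_le_pathWt {e : V → ℕ} (he : Injective e) {n : ℕ} {R : V → V → Prop} {v : V} {z : ℤ}
    (hz : z ∈ pathWt e n R v) : -(n : ℤ) ≤ z := by
  obtain ⟨m, q, h1, -, h3, -, rfl⟩ := hz
  have h4 : m + 1 ≤ n := by
    have : (Finset.range (m + 1)).card ≤ (Finset.range n).card := by
      apply Finset.card_le_card_of_injOn (fun i => e (q i))
      · intro i hi
        simp only [Finset.coe_range, Set.mem_Iio] at hi ⊢
        exact h3 i (by omega)
      · intro i hi j hj h
        simp only [Finset.coe_range, Set.mem_Iio] at hi hj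
        exact h1 i (by omega) j (by omega) (he h)
    simpa using this
  have h5 : ∑ i ∈ Finset.range m, (-1 : ℤ) ≤ ∑ i ∈ Finset.range m, wt e (q i) (q (i + 1)) := by
    refine Finset.sum_le_sum fun i _ => ?_
    unfold wt
    split_ifs <;> norm_num
  rw [Finset.sum_const, Finset.card_range, smul_neg, nsmul_one] at h5
  have h6 : (m : ℤ) + 1 ≤ n := by exact_mod_cast h4
  linarith

/-- The potential. -/
noncomputable def pot (e : V → ℕ) (n : ℕ) (R : V → V → Prop) (v : V) : ℤ :=
  sInf (pathWt e n R v)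

theorem pot_le {e : V → ℕ} (he : Injective e) {n : ℕ} {R : V → V → Prop} {v : V} {z : ℤ}
    (hz : z ∈ pathWt e n R v) : pot e n R v ≤ z :=
  csInf_le ⟨-(n : ℤ), fun _ h => neg_le_pathWt he h⟩ hz

theorem pot_mem {e : V → ℕ} (he : Injective e) {n : ℕ} {R : V → V → Prop} {v : V}
    (hv : e v < n) : pot e n R v ∈ pathWt e n R v := by
  apply Int.csInf_mem
  · exact ⟨0, 0, fun _ => v, fun i hi j hj _ => by omega, fun i hi => by omega,
      fun _ _ => hv, rfl, by simp⟩
  · exact ⟨-(n : ℤ), fun _ h => neg_le_pathWt he h⟩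

theorem pot_edge {e : V → ℕ} (he : Injective e) {n : ℕ} {R : V → V → Prop} (hR : IsT R)
    (hmax : ∀ S, IsCycle R S → Phi e n (reverse R S) ≤ Phi e n R) {u v : V} (huv : R u v)
    (hu : e u < n) (hv : e v < n) : pot e n R v ≤ pot e n R u + wt e u v := by
  obtain ⟨m, q, h1, h2, h3, h4, h5⟩ := pot_mem (R := R) he hu
  by_cases hex : ∃ j ≤ m, q j = v
  · -- the path passes through `v`: cut it there
    obtain ⟨j, hj, hjv⟩ := hex
    have hjm : j ≠ m := fun h => by
      rw [h, h4] at hjv
      exact hR.ne huv hjv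
    have h6 : ∑ i ∈ Finset.range j, wt e (q i) (q (i + 1)) ∈ pathWt e n R v :=
      ⟨j, q, fun i hi i' hi' => h1 i (by omega) i' (by omega), fun i hi => h2 i (by omega),
        fun i hi => h3 i (by omega), hjv, rfl⟩
    have h7 := weight_nonneg he hR hmax (m - j) (by omega) (fun i => q (j + i))
      (fun i hi i' hi' h => by
        have := h1 (j + i) (by omega) (j + i') (by omega) h
        omega)
      (fun i hi => h2 (j + i) (by omega))
      (by
        simp only [show j + (m - j) = m by omega, add_zero]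
        rw [h4, hjv]
        exact huv)
      (fun i hi => h3 _ (by omega))
    simp only [show j + (m - j) = m by omega, add_zero] at h7
    rw [h4, hjv] at h7
    have h8 : ∑ i ∈ Finset.range m, wt e (q i) (q (i + 1)) =
        ∑ i ∈ Finset.range j, wt e (q i) (q (i + 1)) +
        ∑ i ∈ Finset.range (m - j), wt e (q (j + i)) (q (j + (i + 1))) := by
      have h9 : m = j + (m - j) := by omega
      conv_lhs => rw [h9]
      rw [Finset.sum_range_add]
      rfl
    have h10 := pot_le he h6
    linarith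
  · push Not at hex
    have h6 : ∑ i ∈ Finset.range m, wt e (q i) (q (i + 1)) + wt e u v ∈ pathWt e n R v := by
      refine ⟨m + 1, fun i => if i ≤ m then q i else v, ?_, ?_, ?_, ?_, ?_⟩
      · intro i hi j hj h
        simp only at h
        split_ifs at h with h7 h8 h8
        · exact h1 i h7 j h8 h
        · exact absurd h (hex i h7)
        · exact absurd h.symm (hex j h8)
        · omega
      · intro i hi
        by_cases h7 : i = m
        · subst h7
          simp only [le_refl, if_true, if_neg (show ¬ i + 1 ≤ i by omega), h4]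
          exact huv
        · simp only [if_pos (show i ≤ m by omega), if_pos (show i + 1 ≤ m by omega)]
          exact h2 i (by omega)
      · intro i hi
        simp only
        split_ifs with h7
        · exact h3 i h7
        · exact hv
      · simp
      · rw [Finset.sum_range_succ]
        congr 1
        · refine Finset.sum_congr rfl fun i hi => ?_
          rw [Finset.mem_range] at hi
          simp only [if_pos (show i ≤ m by omega), if_pos (show i + 1 ≤ m by omega)]
        · simp only [le_refl, if_true, if_neg (show ¬ m + 1 ≤ m by omega), h4]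
    have h10 := pot_le he h6
    linarith

/-- The colouring by the parity of the potential has no monochromatic cycle inside `{e < n}`. -/
theorem exists_col {e : V → ℕ} (he : Injective e) {n : ℕ} {R : V → V → Prop} (hR : IsT R)
    (hmax : ∀ S, IsCycle R S → Phi e n (reverse R S) ≤ Phi e n R) :
    ∃ c : V → Bool, ∀ (N : ℕ), 2 ≤ N → ∀ p : ZMod N → V, (∀ i, R (p i) (p (i + 1))) →
      (∀ i, e (p i) < n) → ∃ i j, c (p i) ≠ c (p j) := by
  classical
  refine ⟨fun v => decide (pot e n R v % 2 = 0), fun N hN p hp hpn => ?_⟩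
  by_contra hcon
  push Not at hcon
  have : NeZero N := ⟨by omega⟩
  have hpar : ∀ i, pot e n R (p (i + 1)) % 2 = pot e n R (p i) % 2 := by
    intro i
    have := hcon i (i + 1)
    rw [decide_eq_decide] at this
    omega
  have hle : ∀ i, pot e n R (p (i + 1)) ≤ pot e n R (p i) ∧
      (wt e (p i) (p (i + 1)) ≠ 1 → pot e n R (p (i + 1)) < pot e n R (p i)) := by
    intro i
    have h1 := pot_edge he hR hmax (hp i) (hpn i) (hpn (i + 1))
    have h2 := hpar i
    unfold wt at h1 ⊢
    split_ifs at h1 ⊢ with h3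
    · refine ⟨by omega, fun h => absurd rfl h⟩
    · exact ⟨by omega, fun _ => by omega⟩
  have hsum : ∑ i : ZMod N, pot e n R (p (i + 1)) = ∑ i : ZMod N, pot e n R (p i) :=
    Equiv.sum_comp (Equiv.addRight (1 : ZMod N)) fun i => pot e n R (p i)
  have heq := (Finset.sum_eq_sum_iff_of_le fun i _ => (hle i).1).1 hsum
  have hfwd : ∀ i, e (p i) < e (p (i + 1)) := by
    intro i
    by_contra h
    have h1 : wt e (p i) (p (i + 1)) ≠ 1 := by
      unfold wt; rw [if_neg h]; norm_num
    have h2 := (hle i).2 h1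
    have h3 := heq i (Finset.mem_univ _)
    omega
  have hsum2 : ∑ i : ZMod N, e (p (i + 1)) = ∑ i : ZMod N, e (p i) :=
    Equiv.sum_comp (Equiv.addRight (1 : ZMod N)) fun i => e (p i)
  have hlt : ∑ i : ZMod N, e (p i) < ∑ i : ZMod N, e (p (i + 1)) :=
    Finset.sum_lt_sum (fun i _ => (hfwd i).le) ⟨0, Finset.mem_univ _, hfwd 0⟩
  omega

/-- There is a maximiser. -/
theorem exists_max {e : V → ℕ} (he : Injective e) (n : ℕ) {R : V → V → Prop} (hR : IsT R) :
    ∃ R', IsT R' ∧ Bal R R' ∧ ∀ S, IsCycle R' S → Phi e n (reverse R' S) ≤ Phi e n R' := by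
  classical
  let A : Set ℕ := {a | ∃ R', IsT R' ∧ Bal R R' ∧ Phi e n R' = a}
  have hne : A.Nonempty := ⟨_, R, hR, Bal.refl R, rfl⟩
  have hbdd : BddAbove A := ⟨Phi e n (fun _ _ => True), by
    rintro _ ⟨R', -, -, rfl⟩
    exact Phi_le he n R'⟩
  obtain ⟨R', h1, h2, h3⟩ := Nat.sSup_mem hne hbdd
  refine ⟨R', h1, h2, fun S hS => ?_⟩
  rw [h3]
  exact le_csSup hbdd ⟨_, h1.reverse S, h2.trans (bal_reverse h1 hS), rfl⟩

/-- The limit tournament and its colouring. -/
theorem exists_limit {e : V → ℕ} (he : Injective e) {R : V → V → Prop} (hR : IsT R) :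
    ∃ (s : V → V → Prop) (c : V → Bool), IsT s ∧
      (∀ E : Finset (Sym2 V), ∃ R', IsT R' ∧ Bal R R' ∧
        ∀ x y, s(x, y) ∈ E → (R' x y ↔ s x y)) ∧
      ∀ (N : ℕ), 2 ≤ N → ∀ p : ZMod N → V, (∀ i, s (p i) (p (i + 1))) →
        ∃ i j, c (p i) ≠ c (p j) := by
  classical
  have h : ∀ n, ∃ (T : V → V → Prop) (c : V → Bool), IsT T ∧ Bal R T ∧
      ∀ (N : ℕ), 2 ≤ N → ∀ p : ZMod N → V, (∀ i, T (p i) (p (i + 1))) →
      (∀ i, e (p i) < n) → ∃ i j, c (p i) ≠ c (p j) := by
    intro n
    obtain ⟨T, h1, h2, h3⟩ := exists_max he n hR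
    obtain ⟨c, hc⟩ := exists_col he h1 h3
    exact ⟨T, c, h1, h2, hc⟩
  choose T c hT hbal hc using h
  let U : Ultrafilter ℕ := Filter.hyperfilter ℕ
  let s : V → V → Prop := fun x y => ∀ᶠ n in (U : Filter ℕ), T n x y
  let cc : V → Bool := fun x => decide (∀ᶠ n in (U : Filter ℕ), c n x = true)
  have hs : ∀ x y, ∀ᶠ n in (U : Filter ℕ), (T n x y ↔ s x y) := by
    intro x y
    by_cases hxy : s x y
    · have h1 : ∀ᶠ n in (U : Filter ℕ), T n x y := hxy
      filter_upwards [h1] with n hn
      exact ⟨fun _ => hxy, fun _ => hn⟩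
    · have h1 : ∀ᶠ n in (U : Filter ℕ), ¬ T n x y := Ultrafilter.eventually_not.2 hxy
      filter_upwards [h1] with n hn
      exact ⟨fun h => absurd h hn, fun h => absurd h hxy⟩
  have hcc : ∀ x, ∀ᶠ n in (U : Filter ℕ), c n x = cc x := by
    intro x
    by_cases hx : ∀ᶠ n in (U : Filter ℕ), c n x = true
    · have h2 : cc x = true := by simp only [cc, decide_eq_true_eq]; exact hx
      filter_upwards [hx] with n hn
      rw [hn, h2]
    · have h2 : cc x = false := by simp only [cc, decide_eq_false_iff_not]; exact hx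
      have h1 : ∀ᶠ n in (U : Filter ℕ), ¬ c n x = true := Ultrafilter.eventually_not.2 hx
      filter_upwards [h1] with n hn
      rw [h2]
      simpa using hn
  refine ⟨s, cc, ?_, ?_, ?_⟩
  · intro x y
    obtain ⟨n, h1, h2⟩ := ((hs x y).and (hs y x)).exists
    rw [← h1, ← h2]
    exact hT n x y
  · intro E
    have h1 : ∀ f ∈ E, ∀ᶠ n in (U : Filter ℕ), ∀ x y, s(x, y) = f → (T n x y ↔ s x y) := by
      intro f _
      induction f using Sym2.inductionOn with
      | hf a b =>
        filter_upwards [hs a b, hs b a] with n h2 h3 x y hxy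
        rw [Sym2.eq_iff] at hxy
        rcases hxy with ⟨rfl, rfl⟩ | ⟨rfl, rfl⟩
        · exact h2
        · exact h3
    have h2 := (Filter.eventually_all_finset E).2 h1
    obtain ⟨n, hn⟩ := h2.exists
    exact ⟨T n, hT n, hbal n, fun x y hxy => hn _ hxy x y rfl⟩
  · intro N hN p hp
    have : NeZero N := ⟨by omega⟩
    by_contra hcon
    push Not at hcon
    have h1 : ∀ᶠ n in (U : Filter ℕ), ∀ i, T n (p i) (p (i + 1)) :=
      Filter.eventually_all.2 fun i => hp i
    have h2 : ∀ᶠ n in (U : Filter ℕ), ∀ i, c n (p i) = cc (p i) :=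
      Filter.eventually_all.2 fun i => hcc (p i)
    have h3 : ∀ᶠ n in (U : Filter ℕ), ∀ i, e (p i) < n :=
      Filter.eventually_all.2 fun i =>
        Filter.Eventually.filter_mono Nat.hyperfilter_le_atTop
          (Filter.eventually_gt_atTop (e (p i)))
    obtain ⟨n, h4, h5, h6⟩ := (h1.and (h2.and h3)).exists
    obtain ⟨i, j, hij⟩ := hc n N hN p h4 h6
    rw [h5, h5] at hij
    exact hij (hcon i j)

end Pool.Agent.Helper4.ZC
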