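import Pool.Agent.Helper4.ZC.Base

set_option autoImplicit false

/-! Tournaments, reversal of edge sets, and cycles given by paths. -/

namespace Pool.Agent.Helper4.ZC

open Function Order

universe u

variable {V : Type u}

/-- `r` is a tournament. -/
def IsT (r : V → V → Prop) : Prop := ∀ x y, r x y ↔ (x ≠ y ∧ ¬ r y x)

theorem IsT.irrefl {r : V → V → Prop} (h : IsT r) (x : V) : ¬ r x x := fun hx =>
  ((h x x).1 hx).1 rfl

theorem IsT.ne {r : V → V → Prop} (h : IsT r) {x y : V} (hxy : r x y) : x ≠ y :=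
  ((h x y).1 hxy).1

theorem IsT.asymm {r : V → V → Prop} (h : IsT r) {x y : V} (hxy : r x y) : ¬ r y x :=
  ((h x y).1 hxy).2

theorem IsT.of_not {r : V → V → Prop} (h : IsT r) {x y : V} (hne : x ≠ y) (hxy : ¬ r y x) :
    r x y := (h x y).2 ⟨hne, hxy⟩

theorem IsT.flip {r : V → V → Prop} (h : IsT r) : IsT (flip r) := by
  intro x y
  change r y x ↔ x ≠ y ∧ ¬ r x y
  rw [h y x]
  exact ⟨fun h1 => ⟨h1.1.symm, h1.2⟩, fun h1 => ⟨h1.1.symm, h1.2⟩⟩

theorem reverse_of_mem {r : V → V → Prop} {S : Set (Sym2 V)} {x y : V} (h : s(x, y) ∈ S) :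
    reverse r S x y ↔ r y x := by simp [reverse, h]

theorem reverse_of_notMem {r : V → V → Prop} {S : Set (Sym2 V)} {x y : V} (h : s(x, y) ∉ S) :
    reverse r S x y ↔ r x y := by simp [reverse, h]

theorem IsT.reverse {r : V → V → Prop} (h : IsT r) (S : Set (Sym2 V)) : IsT (reverse r S) := by
  intro x y
  by_cases hS : s(x, y) ∈ S
  · rw [reverse_of_mem hS, reverse_of_mem (by rwa [Sym2.eq_swap]), h y x]
    exact ⟨fun h1 => ⟨h1.1.symm, h1.2⟩, fun h1 => ⟨h1.1.symm, h1.2⟩⟩
  · rw [reverse_of_notMem hS, reverse_of_notMem (by rwa [Sym2.eq_swap]), h x y]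

theorem reverse_reverse (r : V → V → Prop) (S S' : Set (Sym2 V)) :
    reverse (reverse r S) S' = reverse r (symmDiff S S') := by
  ext x y
  by_cases h : s(x, y) ∈ S <;> by_cases h' : s(x, y) ∈ S'
  · have h2 : s(y, x) ∈ S := by rwa [Sym2.eq_swap]
    have h3 : s(x, y) ∉ symmDiff S S' := by simp [Set.mem_symmDiff, h, h']
    rw [reverse_of_mem h', reverse_of_mem h2, reverse_of_notMem h3]
  · have h3 : s(x, y) ∈ symmDiff S S' := by simp [Set.mem_symmDiff, h, h']
    rw [reverse_of_notMem h', reverse_of_mem h, reverse_of_mem h3]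
  · have h2 : s(y, x) ∉ S := by rwa [Sym2.eq_swap]
    have h3 : s(x, y) ∈ symmDiff S S' := by simp [Set.mem_symmDiff, h, h']
    rw [reverse_of_mem h', reverse_of_notMem h2, reverse_of_mem h3]
  · have h3 : s(x, y) ∉ symmDiff S S' := by simp [Set.mem_symmDiff, h, h']
    rw [reverse_of_notMem h', reverse_of_notMem h, reverse_of_notMem h3]

theorem reverse_empty (r : V → V → Prop) : reverse r ∅ = r := by
  ext x y; simp [reverse]

/-- A cycle given by a path `q 0, ..., q k` and the closing edge. -/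
theorem isCycle_of_path {r : V → V → Prop} (k : ℕ) (hk : 1 ≤ k) (q : ℕ → V)
    (hinj : ∀ i ≤ k, ∀ j ≤ k, q i = q j → i = j) (hq : ∀ i < k, r (q i) (q (i + 1)))
    (hc : r (q k) (q 0)) :
    IsCycle r {e | (∃ i < k, e = s(q i, q (i + 1))) ∨ e = s(q k, q 0)} := by
  have hval : ∀ i : ZMod (k + 1), i.val ≤ k := fun i => by
    have := ZMod.val_lt i
    omega
  have hsucc : ∀ i : ZMod (k + 1), (i.val < k ∧ (i + 1).val = i.val + 1) ∨
      (i.val = k ∧ (i + 1).val = 0) := by
    intro i
    have h1 : (1 : ZMod (k + 1)).val = 1 := by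
      rw [ZMod.val_one_eq_one_mod]
      exact Nat.mod_eq_of_lt (by omega)
    rcases (hval i).lt_or_eq with h | h
    · left
      refine ⟨h, ?_⟩
      rw [ZMod.val_add_of_lt (by rw [h1]; omega), h1]
    · right
      refine ⟨h, ?_⟩
      rw [ZMod.val_add, h1, h, Nat.mod_self]
  refine ⟨k + 1, by omega, fun i => q i.val, ?_, ?_, ?_⟩
  · intro i j hij
    exact ZMod.val_injective _ (hinj _ (hval i) _ (hval j) hij)
  · intro i
    rcases hsucc i with ⟨h1, h2⟩ | ⟨h1, h2⟩
    · simp only [h2]; exact hq _ h1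
    · simp only [h1, h2]; exact hc
  · ext e
    constructor
    · rintro (⟨i, hi, rfl⟩ | rfl)
      · refine ⟨(i : ZMod (k + 1)), ?_⟩
        have h1 : ((i : ℕ) : ZMod (k + 1)).val = i := by
          rw [ZMod.val_natCast]; exact Nat.mod_eq_of_lt (by omega)
        rcases hsucc (i : ZMod (k + 1)) with ⟨h3, h4⟩ | ⟨h3, h4⟩
        · simp only [h4, h1]
        · omega
      · refine ⟨(k : ZMod (k + 1)), ?_⟩
        have h1 : ((k : ℕ) : ZMod (k + 1)).val = k := by
          rw [ZMod.val_natCast]; exact Nat.mod_eq_of_lt (by omega)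
        rcases hsucc (k : ZMod (k + 1)) with ⟨h3, h4⟩ | ⟨h3, h4⟩
        · omega
        · simp only [h4, h1]
    · rintro ⟨i, rfl⟩
      rcases hsucc i with ⟨h1, h2⟩ | ⟨h1, h2⟩
      · left; exact ⟨i.val, h1, by simp only [h2]⟩
      · right; simp only [h1, h2]

theorem isCycle_three {r : V → V → Prop} (hr : IsT r) {x y w : V} (h1 : r x y) (h2 : r y w)
    (h3 : r w x) : IsCycle r {s(x, y), s(y, w), s(w, x)} := by
  have hxy := hr.ne h1
  have hyw := hr.ne h2
  have hwx := hr.ne h3
  have := isCycle_of_path (r := r) 2 (by norm_num)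
    (fun i => if i = 0 then x else if i = 1 then y else w) ?_ ?_ ?_
  · convert this using 1
    ext e
    simp only [Set.mem_insert_iff, Set.mem_singleton_iff, Set.mem_ofPred_eq]
    constructor
    · rintro (rfl | rfl | rfl)
      · left; exact ⟨0, by norm_num, by simp⟩
      · left; exact ⟨1, by norm_num, by simp⟩
      · right; simp
    · rintro (⟨i, hi, rfl⟩ | rfl)
      · interval_cases i
        · simp
        · simp
      · simp
  · intro i hi j hj
    interval_cases i <;> interval_cases j <;> simp [hxy, hyw, hwx, hxy.symm, hyw.symm, hwx.symm]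
  · intro i hi
    interval_cases i
    · simpa using h1
    · simpa using h2
  · simpa using h3

theorem isCycle_four {r : V → V → Prop} (hr : IsT r) {x w y v : V} (h1 : r x w) (h2 : r w y)
    (h3 : r y v) (h4 : r v x) (hxy : x ≠ y) (hwv : w ≠ v) :
    IsCycle r {s(x, w), s(w, y), s(y, v), s(v, x)} := by
  have hxw := hr.ne h1
  have hwy := hr.ne h2
  have hyv := hr.ne h3
  have hvx := hr.ne h4
  have := isCycle_of_path (r := r) 3 (by norm_num)
    (fun i => if i = 0 then x else if i = 1 then w else if i = 2 then y else v) ?_ ?_ ?_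
  · convert this using 1
    ext e
    simp only [Set.mem_insert_iff, Set.mem_singleton_iff, Set.mem_ofPred_eq]
    constructor
    · rintro (rfl | rfl | rfl | rfl)
      · left; exact ⟨0, by norm_num, by simp⟩
      · left; exact ⟨1, by norm_num, by simp⟩
      · left; exact ⟨2, by norm_num, by simp⟩
      · right; simp
    · rintro (⟨i, hi, rfl⟩ | rfl)
      · interval_cases i
        · simp
        · simp
        · simp
      · simp
  · intro i hi j hj
    interval_cases i <;> interval_cases j <;>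
      simp [hxy, hwv, hxw, hwy, hyv, hvx, hxy.symm, hwv.symm, hxw.symm, hwy.symm, hyv.symm,
        hvx.symm]
  · intro i hi
    interval_cases i
    · simpa using h1
    · simpa using h2
    · simpa using h3
  · simpa using h4

end Pool.Agent.Helper4.ZC
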