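import Pool.Agent.Helper4.ZC.Cyc

set_option autoImplicit false

/-! Reversing a single edge which has infinitely many returns of length two, and reversing
countably many such edges. -/

namespace Pool.Agent.Helper4.ZC

open Function Order

universe u

variable {V : Type u}

/-- There is an injective sequence in an infinite set, through representatives of a sequence of
infinite sets. -/
theorem exists_injective_rep (Y : ℕ → Set V) (hY : ∀ n, (Y n).Infinite) :
    ∃ x : ℕ → V, Injective x ∧ ∀ n, x n ∈ Y n := by
  classical
  have hch : ∀ (n : ℕ) (s : Finset V), ∃ v, v ∈ Y n ∧ v ∉ s := fun n s =>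
    ((hY n).exists_notMem_finset s).imp fun v hv => hv
  choose g hg1 hg2 using hch
  let st : ℕ → Finset V := fun n => Nat.rec ∅ (fun k s => insert (g k s) s) n
  have hst : ∀ n, st (n + 1) = insert (g n (st n)) (st n) := fun _ => rfl
  have hmono : Monotone st := monotone_nat_of_le_succ fun n => by
    rw [hst]; exact Finset.subset_insert _ _
  refine ⟨fun n => g n (st n), ?_, fun n => hg1 _ _⟩
  have key : ∀ m n, m < n → g m (st m) ≠ g n (st n) := by
    intro m n hmn heq
    apply hg2 n (st n)
    rw [← heq]
    apply hmono (show m + 1 ≤ n by omega)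
    rw [hst]
    exact Finset.mem_insert_self _ _
  intro m n hmn
  rcases lt_trichotomy m n with h | h | h
  · exact absurd hmn (key m n h)
  · exact h
  · exact absurd hmn.symm (key n m h)

/-- An edge with infinitely many returns of length two can be reversed alone. -/
theorem flip_edge {r : V → V → Prop} (hr : IsT r) {x y : V} (hxy : r x y)
    (hinf : {w | r y w ∧ r w x}.Infinite) {F : Set (Sym2 V)} (hF : F.Finite)
    (hxyF : s(x, y) ∉ F) : RevA F r (reverse r {s(x, y)}) := by
  classical
  have hne : x ≠ y := hr.ne hxy
  -- only finitely many `w` are blocked by `F`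
  have hbad : {w | s(y, w) ∈ F ∨ s(w, x) ∈ F}.Finite := by
    have h1 : {w | s(y, w) ∈ F}.Finite :=
      Set.Finite.preimage (f := fun w => s(y, w)) (fun a _ b _ h => Sym2.congr_right.1 h) hF
    have h2 : {w | s(w, x) ∈ F}.Finite :=
      Set.Finite.preimage (f := fun w => s(w, x)) (fun a _ b _ h => Sym2.congr_left.1 h) hF
    exact (h1.union h2).subset fun w hw => hw
  obtain ⟨w, hwinj, hw⟩ := exists_injective_rep
    (fun _ : ℕ => {w | r y w ∧ r w x} \ {w | s(y, w) ∈ F ∨ s(w, x) ∈ F})
    (fun _ => hinf.sdiff hbad)
  have hyw : ∀ n, r y (w n) := fun n => (hw n).1.1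
  have hwx : ∀ n, r (w n) x := fun n => (hw n).1.2
  have hywF : ∀ n, s(y, w n) ∉ F := fun n h => (hw n).2 (Or.inl h)
  have hwxF : ∀ n, s(w n, x) ∉ F := fun n h => (hw n).2 (Or.inr h)
  have hywne : ∀ n, y ≠ w n := fun n => hr.ne (hyw n)
  have hwxne : ∀ n, w n ≠ x := fun n => hr.ne (hwx n)
  -- the edges used from stage `n` on
  let U : ℕ → Set (Sym2 V) := fun n => {e | ∃ k, n ≤ k ∧ (e = s(y, w k) ∨ e = s(w k, x))}
  let FF : ℕ → Set (Sym2 V) := fun n => if n = 0 then F else (U (n - 1))ᶜ
  let S : ℕ → Set (Sym2 V) := fun n => {s(x, y), s(y, w n), s(w n, x)}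
  let rr : ℕ → V → V → Prop := fun n => if n = 0 then r else reverse r (S (n - 1))
  have hFU : ∀ n, F ⊆ (U n)ᶜ := by
    rintro n e he ⟨k, -, rfl | rfl⟩
    · exact hywF k he
    · exact hwxF k he
  have hxyU : ∀ n, s(x, y) ∉ U n := by
    rintro n ⟨k, -, h | h⟩
    · rw [Sym2.eq_iff] at h
      rcases h with ⟨h1, -⟩ | ⟨h1, -⟩
      · exact hne h1
      · exact hwxne k h1.symm
    · rw [Sym2.eq_iff] at h
      rcases h with ⟨h1, -⟩ | ⟨-, h2⟩
      · exact hwxne k h1.symm
      · exact hywne k h2
  have hstep : ∀ n, RevA (FF n) (rr n) (rr (n + 1)) := by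
    intro n
    rcases Nat.eq_zero_or_pos n with rfl | hn
    · have h1 : rr 0 = r := by simp [rr]
      have h2 : rr (0 + 1) = reverse r (S 0) := by simp [rr]
      have h3 : FF 0 = F := by simp [FF]
      rw [h1, h2, h3]
      apply RevA.single (Or.inl (isCycle_three hr hxy (hyw 0) (hwx 0)))
      rw [Set.disjoint_left]
      rintro e (rfl | rfl | rfl)
      · exact hxyF
      · exact hywF 0
      · exact hwxF 0
    · obtain ⟨m, rfl⟩ : ∃ m, n = m + 1 := ⟨n - 1, by omega⟩
      have h1 : rr (m + 1) = reverse r (S m) := by simp [rr]
      have h2 : rr (m + 1 + 1) = reverse r (S (m + 1)) := by simp [rr]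
      have h3 : FF (m + 1) = (U m)ᶜ := by simp [FF]
      rw [h1, h2, h3]
      have hwne : w m ≠ w (m + 1) := fun h => by
        have := hwinj h
        omega
      have h4 : reverse r (S (m + 1)) = reverse (reverse r (S m))
          {s(x, w m), s(w m, y), s(y, w (m + 1)), s(w (m + 1), x)} := by
        rw [reverse_reverse]
        congr 1
        ext e
        simp only [S, Set.mem_symmDiff, Set.mem_insert_iff, Set.mem_singleton_iff]
        have e1 : s(x, w m) = s(w m, x) := Sym2.eq_swap
        have e2 : s(w m, y) = s(y, w m) := Sym2.eq_swap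
        rw [e1, e2]
        have a1 : s(x, y) ≠ s(y, w m) := by
          intro h; rw [Sym2.eq_iff] at h
          rcases h with ⟨h1, -⟩ | ⟨h1, -⟩
          · exact hne h1
          · exact hwxne m h1.symm
        have a2 : s(x, y) ≠ s(w m, x) := by
          intro h; rw [Sym2.eq_iff] at h
          rcases h with ⟨h1, -⟩ | ⟨-, h2⟩
          · exact hwxne m h1.symm
          · exact hywne m h2
        have a3 : s(x, y) ≠ s(y, w (m + 1)) := by
          intro h; rw [Sym2.eq_iff] at h
          rcases h with ⟨h1, -⟩ | ⟨h1, -⟩
          · exact hne h1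
          · exact hwxne _ h1.symm
        have a4 : s(x, y) ≠ s(w (m + 1), x) := by
          intro h; rw [Sym2.eq_iff] at h
          rcases h with ⟨h1, -⟩ | ⟨-, h2⟩
          · exact hwxne _ h1.symm
          · exact hywne _ h2
        have a5 : s(y, w m) ≠ s(y, w (m + 1)) := by
          intro h; rw [Sym2.eq_iff] at h
          rcases h with ⟨-, h2⟩ | ⟨h1, -⟩
          · exact hwne h2
          · exact hywne _ h1
        have a6 : s(y, w m) ≠ s(w (m + 1), x) := by
          intro h; rw [Sym2.eq_iff] at h
          rcases h with ⟨h1, -⟩ | ⟨h1, -⟩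
          · exact hywne _ h1
          · exact hne h1.symm
        have a7 : s(w m, x) ≠ s(y, w (m + 1)) := by
          intro h; rw [Sym2.eq_iff] at h
          rcases h with ⟨h1, -⟩ | ⟨-, h2⟩
          · exact hywne _ h1.symm
          · exact hne h2
        have a8 : s(w m, x) ≠ s(w (m + 1), x) := by
          intro h; rw [Sym2.eq_iff] at h
          rcases h with ⟨h1, -⟩ | ⟨h1, -⟩
          · exact hwne h1
          · exact hwxne _ h1
        constructor
        · rintro (rfl | rfl | rfl)
          · left
            refine ⟨by simp, ?_⟩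
            simp [a1, a2, a3, a4]
          · right
            refine ⟨by simp, ?_⟩
            simp [a3.symm, a5.symm, a7.symm]
          · right
            refine ⟨by simp, ?_⟩
            simp [a4.symm, a6.symm, a8.symm]
        · rintro (⟨h | h | h, h'⟩ | ⟨h | h | h | h, h'⟩)
          · exact Or.inl h
          · exact absurd (by simp [h]) h'
          · exact absurd (by simp [h]) h'
          · exact absurd (by simp [h]) h'
          · exact absurd (by simp [h]) h'
          · exact Or.inr (Or.inl h)
          · exact Or.inr (Or.inr h)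
      rw [h4]
      refine RevA.single (Or.inl (isCycle_four (hr.reverse _) ?_ ?_ ?_ ?_ hne hwne)) ?_
      · refine (reverse_of_mem ?_).2 (hwx m)
        simp [S, Sym2.eq_swap]
      · refine (reverse_of_mem ?_).2 (hyw m)
        simp [S, Sym2.eq_swap]
      · refine (reverse_of_notMem ?_).2 (hyw (m + 1))
        simp only [S, Set.mem_insert_iff, Set.mem_singleton_iff, Sym2.eq_iff]
        rintro ((⟨h, -⟩ | ⟨-, h⟩) | (⟨-, h⟩ | ⟨h, -⟩) | (⟨h, -⟩ | ⟨h, -⟩))
        · exact hne h.symm
        · exact hwxne _ h
        · exact hwne h.symm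
        · exact hywne _ h
        · exact hywne _ h
        · exact hne h.symm
      · refine (reverse_of_notMem ?_).2 (hwx (m + 1))
        simp only [S, Set.mem_insert_iff, Set.mem_singleton_iff, Sym2.eq_iff]
        rintro ((⟨h, -⟩ | ⟨h, -⟩) | (⟨h, -⟩ | ⟨-, h⟩) | (⟨h, -⟩ | ⟨h, -⟩))
        · exact hwxne _ h
        · exact hywne _ h.symm
        · exact hywne _ h.symm
        · exact hne h
        · exact hwne h.symm
        · exact hwxne _ h
      · rw [Set.disjoint_compl_right_iff_subset]
        rintro e (rfl | rfl | rfl | rfl)
        · exact ⟨m, le_rfl, Or.inr Sym2.eq_swap⟩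
        · exact ⟨m, le_rfl, Or.inl Sym2.eq_swap⟩
        · exact ⟨m + 1, by omega, Or.inl rfl⟩
        · exact ⟨m + 1, by omega, Or.inr rfl⟩
  -- every edge is eventually not used
  have hfin : ∀ e, ∃ N, ∀ n, N ≤ n → e ∉ U n := by
    intro e
    have h1 : {k | e = s(y, w k) ∨ e = s(w k, x)}.Finite := by
      have h2 : {k | e = s(y, w k)}.Finite :=
        Set.Subsingleton.finite fun a ha b hb => by
          have : s(y, w a) = s(y, w b) := by
            rw [← show e = s(y, w a) from ha, ← show e = s(y, w b) from hb]
          exact hwinj (Sym2.congr_right.1 this)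
      have h3 : {k | e = s(w k, x)}.Finite :=
        Set.Subsingleton.finite fun a ha b hb => by
          have : s(w a, x) = s(w b, x) := by
            rw [← show e = s(w a, x) from ha, ← show e = s(w b, x) from hb]
          exact hwinj (Sym2.congr_left.1 this)
      exact (h2.union h3).subset fun k hk => hk
    obtain ⟨N, hN⟩ := h1.bddAbove
    refine ⟨N + 1, fun n hn => ?_⟩
    rintro ⟨k, hk, h⟩
    have := hN h
    omega
  have hlim := omega_lemma (F := FF) (r := rr) (s := reverse r {s(x, y)}) hstep ?_ ?_
  · have h1 : rr 0 = r := by simp [rr]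
    rw [h1] at hlim
    refine hlim.mono ?_
    intro e he
    simp only [Set.mem_iInter]
    intro n
    by_cases hn : n = 0
    · simpa [FF, hn] using he
    · simp only [FF, if_neg hn]
      exact hFU _ he
  · intro e
    obtain ⟨N, hN⟩ := hfin e
    refine ⟨N + 1, fun n hn => ?_⟩
    simp only [FF, if_neg (show n ≠ 0 by omega)]
    exact hN (n - 1) (by omega)
  · intro a b
    obtain ⟨N, hN⟩ := hfin s(a, b)
    refine ⟨N + 1, fun n hn => ?_⟩
    simp only [rr, if_neg (show n ≠ 0 by omega)]
    have h1 := hN (n - 1) (by omega)
    by_cases h2 : s(a, b) = s(x, y)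
    · rw [reverse_of_mem (show s(a, b) ∈ S (n - 1) by simp only [S, h2]; simp),
        reverse_of_mem (show s(a, b) ∈ ({s(x, y)} : Set (Sym2 V)) from h2)]
    · rw [reverse_of_notMem (S := S (n - 1)), reverse_of_notMem]
      · exact h2
      · simp only [S, Set.mem_insert_iff, Set.mem_singleton_iff]
        rintro (h | h | h)
        · exact h2 h
        · exact h1 ⟨n - 1, le_rfl, Or.inl h⟩
        · exact h1 ⟨n - 1, le_rfl, Or.inr h⟩

/-- In a countable tournament, all the edges of a set can be reversed if each of them has
infinitely many returns of length two. -/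
theorem flip_many [Countable V] {r : V → V → Prop} (hr : IsT r) (S : Set (Sym2 V))
    (hS : ∀ x y, s(x, y) ∈ S → r x y → {w | r y w ∧ r w x}.Infinite) :
    RevA ∅ r (reverse r S) := by
  classical
  have : Encodable V := Encodable.ofCountable V
  have : Countable (Sym2 V) := inferInstance
  have : Encodable (Sym2 V) := Encodable.ofCountable (Sym2 V)
  let S' : ℕ → Set (Sym2 V) := fun n => {e ∈ S | Encodable.encode e < n}
  let FF : ℕ → Set (Sym2 V) := fun n => {e | Encodable.encode e < n}
  have hFfin : ∀ n, (FF n).Finite := fun n =>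
    Set.Finite.preimage (f := fun e : Sym2 V => Encodable.encode e)
      (Encodable.encode_injective.injOn) (Set.finite_lt_nat n)
  have hfin : ∀ n, (S' n).Finite := fun n => (hFfin n).subset fun e he => he.2
  have h0 : S' 0 = ∅ := by ext e; simp [S']
  have hlim := omega_lemma (F := FF) (r := fun n => reverse r (S' n)) (s := reverse r S) ?_ ?_ ?_
  · simp only [h0, reverse_empty] at hlim
    exact hlim.mono (Set.empty_subset _)
  · intro n
    by_cases hex : ∃ e ∈ S, Encodable.encode e = n
    · obtain ⟨e, heS, hen⟩ := hex
      have hS1 : S' (n + 1) = symmDiff (S' n) {e} := by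
        ext e'
        simp only [S', Set.mem_symmDiff, Set.mem_singleton_iff, Set.mem_ofPred_eq]
        constructor
        · rintro ⟨h1, h2⟩
          by_cases h3 : e' = e
          · right; exact ⟨h3, fun h4 => by rw [h3, hen] at h4; exact absurd h4.2 (lt_irrefl _)⟩
          · left
            refine ⟨⟨h1, ?_⟩, h3⟩
            have : Encodable.encode e' ≠ n := fun h4 =>
              h3 (Encodable.encode_injective (h4.trans hen.symm))
            omega
        · rintro (⟨⟨h1, h2⟩, h3⟩ | ⟨h1, h2⟩)
          · exact ⟨h1, by omega⟩
          · exact ⟨h1 ▸ heS, by rw [h1, hen]; omega⟩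
      rw [hS1, ← reverse_reverse]
      have heS' : e ∉ S' n := fun h => by
        have : Encodable.encode e < n := h.2
        omega
      have heF : e ∉ FF n := fun h => by
        have : Encodable.encode e < n := h
        omega
      induction e using Sym2.inductionOn with
      | hf x y =>
        -- `x ≠ y` or nothing happens
        by_cases hxy : x = y
        · subst hxy
          have : reverse (reverse r (S' n)) {s(x, x)} = reverse r (S' n) := by
            ext a b
            by_cases hab : s(a, b) ∈ ({s(x, x)} : Set (Sym2 V))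
            · have h1 : a = x ∧ b = x := by
                simpa using hab
              rw [h1.1, h1.2, reverse_of_mem (by simp)]
            · rw [reverse_of_notMem hab]
          rw [this]
          exact RevA.refl _ _
        · have hrn : IsT (reverse r (S' n)) := hr.reverse _
          -- the infinitude of returns is not destroyed by finitely many changes
          have hreturn : ∀ a b, s(a, b) = s(x, y) → reverse r (S' n) a b →
              {w | reverse r (S' n) b w ∧ reverse r (S' n) w a}.Infinite := by
            intro a b hab h1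
            have hab' : s(a, b) ∉ S' n := by rw [hab]; exact heS'
            rw [reverse_of_notMem hab'] at h1
            have h2 := hS a b (by rw [hab]; exact heS) h1
            have hbad : {w | s(b, w) ∈ S' n ∨ s(w, a) ∈ S' n}.Finite := by
              have h1 : {w | s(b, w) ∈ S' n}.Finite :=
                Set.Finite.preimage (f := fun w => s(b, w)) (fun c _ d _ h => Sym2.congr_right.1 h)
                  (hfin n)
              have h2 : {w | s(w, a) ∈ S' n}.Finite :=
                Set.Finite.preimage (f := fun w => s(w, a)) (fun c _ d _ h => Sym2.congr_left.1 h)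
                  (hfin n)
              exact (h1.union h2).subset fun w hw => hw
            refine (h2.sdiff hbad).mono ?_
            rintro w ⟨⟨h3, h4⟩, h5⟩
            simp only [Set.mem_ofPred_eq, not_or] at h5
            exact ⟨(reverse_of_notMem h5.1).2 h3, (reverse_of_notMem h5.2).2 h4⟩
          by_cases h1 : reverse r (S' n) x y
          · exact flip_edge hrn h1 (hreturn x y rfl h1) (hFfin n) heF
          · have h2 : reverse r (S' n) y x := hrn.of_not (Ne.symm hxy) h1
            have h3 : s(x, y) = s(y, x) := Sym2.eq_swap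
            rw [h3]
            exact flip_edge hrn h2 (hreturn y x h3.symm h2) (hFfin n) (by rw [← h3]; exact heF)
    · have hS1 : S' (n + 1) = S' n := by
        ext e'
        simp only [S', Set.mem_ofPred_eq]
        constructor
        · rintro ⟨h1, h2⟩
          refine ⟨h1, ?_⟩
          have : Encodable.encode e' ≠ n := fun h3 => hex ⟨e', h1, h3⟩
          omega
        · rintro ⟨h1, h2⟩
          exact ⟨h1, by omega⟩
      rw [hS1]
      exact RevA.refl _ _
  · intro e
    exact ⟨Encodable.encode e + 1, fun n hn => by
      show Encodable.encode e < n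
      omega⟩
  · intro x y
    refine ⟨Encodable.encode s(x, y) + 1, fun n hn => ?_⟩
    by_cases h : s(x, y) ∈ S
    · rw [reverse_of_mem h, reverse_of_mem (show s(x, y) ∈ S' n from ⟨h, by omega⟩)]
    · rw [reverse_of_notMem h, reverse_of_notMem (fun h2 => h h2.1)]

end Pool.Agent.Helper4.ZC
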