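import Pool.Agent.Helper4.ZC.Mid

set_option autoImplicit false

/-! The main theorem for countable tournaments. -/

namespace Pool.Agent.Helper4.ZC

open Function Order

universe u

variable {V : Type u}

/-- The vertices of a closed walk which never descends lie in one class. -/
theorem cyc_class {lt : V → V → Prop} (hlt : SWO lt) {N : ℕ} (hN : 1 ≤ N) (p : ZMod N → V)
    (h : ∀ i, ¬ lt (p (i + 1)) (p i)) (i : ZMod N) : ¬ lt (p i) (p (i + 1)) := by
  have key : ∀ k : ℕ, ¬ lt (p (i + 1 + k)) (p (i + 1)) := by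
    intro k
    induction k with
    | zero => simpa using hlt.irrefl _
    | succ k ih =>
      have h1 := h (i + 1 + k)
      have h2 : i + 1 + ((k + 1 : ℕ) : ZMod N) = i + 1 + k + 1 := by push_cast; ring
      rw [h2]
      exact hlt.neg _ _ _ h1 ih
  have h1 := key (N - 1)
  have h2 : i + 1 + ((N - 1 : ℕ) : ZMod N) = i := by
    rw [Nat.cast_sub hN, ZMod.natCast_self]
    push_cast
    ring
  rwa [h2] at h1

theorem resp_cycle {lt : V → V → Prop} (hlt : SWO lt) {R : V → V → Prop} (hR : IsT R)
    (hresp : Resp lt R) {S : Set (Sym2 V)} (hS : IsCycle R S) : Resp lt (reverse R S) := by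
  obtain ⟨N, hN, p, hp, hpr, rfl⟩ := hS
  have h1 : ∀ i, ¬ lt (p (i + 1)) (p i) := fun i h => hR.asymm (hpr i) (hresp _ _ h)
  have h2 := cyc_class hlt (by omega) p h1
  intro x y hxy
  refine (reverse_of_notMem ?_).2 (hresp x y hxy)
  rintro ⟨i, hi⟩
  simp only [Sym2.eq_iff] at hi
  rcases hi with ⟨rfl, rfl⟩ | ⟨rfl, rfl⟩
  · exact h2 i hxy
  · exact h1 i hxy

theorem resp_finRev {lt : V → V → Prop} (hlt : SWO lt) {F : Set (Sym2 V)} {R R' : V → V → Prop}
    (hR : IsT R) (hresp : Resp lt R) (h : FinRev F R R') : IsT R' ∧ Resp lt R' := by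
  induction h with
  | refl => exact ⟨hR, hresp⟩
  | tail _ h ih =>
    obtain ⟨S, hS1, hS2, rfl⟩ := h
    exact ⟨ih.1.reverse S, resp_cycle hlt ih.1 ih.2 hS1⟩

theorem resp_bal {lt : V → V → Prop} (hlt : SWO lt) {R R' : V → V → Prop}
    (hR : IsT R) (hR' : IsT R') (hresp : Resp lt R) (h : Bal R R') : Resp lt R' :=
  (resp_finRev hlt hR hresp
    (finRev_of_bal (F := ∅) hR' _ R hR h (fun _ _ h => absurd h (Set.notMem_empty _)) rfl)).2

theorem Bal.flip {R R' : V → V → Prop} (hR : IsT R) (hR' : IsT R') (h : Bal R R') :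
    Bal (flip R) (flip R') := by
  classical
  obtain ⟨F₀, h1, h2⟩ := h
  refine ⟨F₀, fun u v huv => h1 v u fun h => huv ⟨h.2, h.1⟩, fun v => ?_⟩
  have key : ∀ Q : V → V → Prop, IsT Q → (F₀.filter fun w => Q v w).card +
      (F₀.filter fun w => Q w v).card = (F₀.erase v).card := by
    intro Q hQ
    rw [← Finset.card_union_of_disjoint]
    · congr 1
      ext w
      simp only [Finset.mem_union, Finset.mem_filter, Finset.mem_erase]
      constructor
      · rintro (⟨h3, h4⟩ | ⟨h3, h4⟩)
        · exact ⟨(hQ.ne h4).symm, h3⟩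
        · exact ⟨hQ.ne h4, h3⟩
      · rintro ⟨h3, h4⟩
        by_cases h5 : Q v w
        · exact Or.inl ⟨h4, h5⟩
        · exact Or.inr ⟨h4, hQ.of_not h3 h5⟩
    · rw [Finset.disjoint_left]
      intro w h3 h4
      exact hQ.asymm (Finset.mem_filter.1 h3).2 (Finset.mem_filter.1 h4).2
  have h3 := key R hR
  have h4 := key R' hR'
  have h5 := h2 v
  show (F₀.filter fun w => R v w).card = (F₀.filter fun w => R' v w).card
  omega

/-- Finite in-degrees inside a class do not increase in the limit. -/
theorem fatou {R s : V → V → Prop}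
    (hcl : ∀ E : Finset (Sym2 V), ∃ R', IsT R' ∧ Bal R R' ∧
        ∀ x y, s(x, y) ∈ E → (R' x y ↔ s x y)) (C : Set V) (u : V)
    (hC : ∀ R', IsT R' → Bal R R' → ∀ w, w ∉ C → (R w u ↔ R' w u))
    (hfin : {w | w ∈ C ∧ R w u}.Finite) : {w | w ∈ C ∧ s w u}.Finite := by
  classical
  by_contra hinf
  obtain ⟨X, hX1, hX2⟩ := Set.Infinite.exists_subset_card_eq hinf (hfin.toFinset.card + 1)
  obtain ⟨R', h1, h2, h3⟩ := hcl (X.image fun w => s(w, u))
  obtain ⟨F₀, h4, h5⟩ := id h2
  have h6 := bal_superset (F := F₀ ∪ X) Finset.subset_union_left h4 h5 u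
  set F := F₀ ∪ X with hF
  have key : ∀ Q : V → V → Prop, (F.filter fun w => Q w u).card =
      (F.filter fun w => w ∈ C ∧ Q w u).card + (F.filter fun w => w ∉ C ∧ Q w u).card := by
    intro Q
    rw [← Finset.card_union_of_disjoint]
    · congr 1
      ext w
      simp only [Finset.mem_union, Finset.mem_filter]
      tauto
    · rw [Finset.disjoint_left]
      intro w h7 h8
      exact (Finset.mem_filter.1 h8).2.1 (Finset.mem_filter.1 h7).2.1
  have h7 : (F.filter fun w => w ∉ C ∧ R w u) = (F.filter fun w => w ∉ C ∧ R' w u) := by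
    apply Finset.filter_congr
    intro w _
    constructor
    · rintro ⟨h8, h9⟩
      exact ⟨h8, (hC R' h1 h2 w h8).1 h9⟩
    · rintro ⟨h8, h9⟩
      exact ⟨h8, (hC R' h1 h2 w h8).2 h9⟩
  rw [key R, key R', h7] at h6
  have h8 : (F.filter fun w => w ∈ C ∧ R w u).card ≤ hfin.toFinset.card := by
    apply Finset.card_le_card
    intro w hw
    rw [Set.Finite.mem_toFinset]
    exact (Finset.mem_filter.1 hw).2
  have h9 : X.card ≤ (F.filter fun w => w ∈ C ∧ R' w u).card := by
    apply Finset.card_le_card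
    intro w hw
    have h10 := hX1 hw
    rw [Finset.mem_filter]
    refine ⟨Finset.mem_union_right _ hw, h10.1, ?_⟩
    exact (h3 w u (Finset.mem_image_of_mem _ hw)).2 h10.2
  omega

/-- A descending sequence that is a transitive tournament leads to a contradiction in the part
with finite in-degrees. -/
theorem no_desc {lt : V → V → Prop} (hlt : SWO lt) {s : V → V → Prop} {f : ℕ → V}
    (hf : Injective f) (hmono : ∀ n, ¬ lt (f n) (f (n + 1)))
    (hno : ¬ ∃ g : ℕ → V, (∀ n, lt (g (n + 1)) (g n)) ∧ ¬ lt (f 0) (g 0))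
    (htr : ∀ m n, m < n → s (f n) (f m))
    (hfin : ∀ u, ¬ lt (f 0) u → {w | ¬ lt w u ∧ ¬ lt u w ∧ s w u}.Finite) : False := by
  have hmono' : ∀ m n, m ≤ n → ¬ lt (f m) (f n) := by
    intro m n hmn
    induction n, hmn using Nat.le_induction with
    | base => exact hlt.irrefl _
    | succ n _ ih => exact hlt.neg _ _ _ ih (hmono n)
  have h1 : ∃ n₀, ∀ n, n₀ < n → ¬ lt (f n) (f n₀) := by
    by_contra hcon
    push Not at hcon
    choose g hg1 hg2 using hcon
    apply hno
    refine ⟨fun n => f (g^[n] 0), fun n => ?_, ?_⟩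
    · simp only [iterate_succ_apply']
      exact hg2 _
    · simpa using hlt.irrefl _
  obtain ⟨n₀, hn₀⟩ := h1
  have h2 := hfin (f n₀) (hmono' 0 n₀ (Nat.zero_le _))
  refine Set.infinite_of_injective_forall_mem (f := fun n => f (n₀ + 1 + n)) ?_ ?_ h2
  · intro m n h
    simpa using hf h
  · intro n
    exact ⟨hn₀ _ (by omega), hmono' _ _ (by omega), htr _ _ (by omega)⟩

/-- No monochromatic cycles for the reversed tournament. -/
theorem noMono_flip {s : V → V → Prop} {c : V → Bool}
    (h : ∀ (N : ℕ), 2 ≤ N → ∀ p : ZMod N → V, Injective p → (∀ i, s (p i) (p (i + 1))) →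
        ∃ i j, c (p i) ≠ c (p j)) :
    ∀ (N : ℕ), 2 ≤ N → ∀ p : ZMod N → V, Injective p → (∀ i, flip s (p i) (p (i + 1))) →
        ∃ i j, c (p i) ≠ c (p j) := by
  intro N hN p hp hpr
  obtain ⟨i, j, hij⟩ := h N hN (fun i => p (-i)) (fun i j hij => neg_injective (hp hij)) (by
    intro i
    have h1 := hpr (-i - 1)
    have h2 : -i - 1 + 1 = -i := by ring
    have h3 : -(i + 1) = -i - 1 := by ring
    rw [h2] at h1
    simp only [h3]
    exact h1)
  exact ⟨-i, -j, hij⟩

/-- A monochromatic path is transitive. -/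
theorem trans_chain {s : V → V → Prop} (hs : IsT s) {c : V → Bool}
    (hc : ∀ (N : ℕ), 2 ≤ N → ∀ p : ZMod N → V, Injective p → (∀ i, s (p i) (p (i + 1))) →
        ∃ i j, c (p i) ≠ c (p j)) {f : ℕ → V} (hf : Injective f)
    (hfs : ∀ n, s (f (n + 1)) (f n)) (hcf : ∀ m n, c (f m) = c (f n)) :
    ∀ m n, m < n → s (f n) (f m) := by
  intro m n hmn
  by_contra hno
  have h1 : s (f m) (f n) := hs.of_not (fun h => by have := hf h; omega) hno
  obtain ⟨k, rfl⟩ : ∃ k, n = m + k := ⟨n - m, by omega⟩
  obtain ⟨N, hN, p, hp, hpr, hpS⟩ := isCycle_of_path (r := s) k (by omega)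
    (fun i => f (m + k - i))
    (fun i hi j hj h => by have := hf h; omega)
    (fun i hi => by
      have := hfs (m + k - (i + 1))
      rwa [show m + k - (i + 1) + 1 = m + k - i by omega] at this)
    (by
      simp only [show m + k - k = m by omega, Nat.sub_zero]
      exact h1)
  have h2 : ∀ i, ∃ j, p i = f j := by
    intro i
    have h3 : s(p i, p (i + 1)) ∈ Set.range fun i => s(p i, p (i + 1)) := ⟨i, rfl⟩
    rw [← hpS] at h3
    rcases h3 with ⟨j, -, h4⟩ | h4
    · rw [Sym2.eq_iff] at h4
      rcases h4 with ⟨h5, -⟩ | ⟨h5, -⟩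
      · exact ⟨_, h5⟩
      · exact ⟨_, h5⟩
    · rw [Sym2.eq_iff] at h4
      rcases h4 with ⟨h5, -⟩ | ⟨h5, -⟩
      · exact ⟨_, h5⟩
      · exact ⟨_, h5⟩
  obtain ⟨i, j, hij⟩ := hc N hN p hp hpr
  obtain ⟨a, ha⟩ := h2 i
  obtain ⟨b, hb⟩ := h2 j
  rw [ha, hb] at hij
  exact hij (hcf a b)

/-- The refined order: first by the part `P`, then by the old order in the parts `0` and `3`, by the
reversed enumeration in part `1`, by the enumeration in part `2`. -/
def lt2 (lt : V → V → Prop) (e P : V → ℕ) (x y : V) : Prop :=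
  P x < P y ∨ (P x = P y ∧ ((P x ≠ 1 ∧ P x ≠ 2 ∧ lt x y) ∨ (P x = 1 ∧ e y < e x) ∨
    (P x = 2 ∧ e x < e y)))

theorem swo_lt2 {lt : V → V → Prop} (hlt : SWO lt) (e P : V → ℕ) : SWO (lt2 lt e P) := by
  constructor
  · rintro x y (h1 | ⟨h1, h2 | h2 | h2⟩) (h3 | ⟨h3, h4 | h4 | h4⟩)
    · omega
    · omega
    · omega
    · omega
    · omega
    · exact hlt.asymm _ _ h2.2.2 h4.2.2
    · omega
    · omega
    · omega
    · omega
    · omega
    · omega
    · omega
    · omega
    · omega
    · omega
  · intro x y z h1 h2 h3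
    unfold lt2 at h1 h2
    push Not at h1 h2
    obtain ⟨h4, h5⟩ := h1
    obtain ⟨h6, h7⟩ := h2
    rcases h3 with h3 | ⟨h3, h8⟩
    · omega
    · have h9 : P x = P y := by omega
      have h10 : P y = P z := by omega
      obtain ⟨h11, h12, h13⟩ := h5 h9
      obtain ⟨h14, h15, h16⟩ := h7 h10
      rcases h8 with ⟨h8, h8', h17⟩ | ⟨h8, h17⟩ | ⟨h8, h17⟩
      · exact hlt.neg x y z (h11 h8 h8') (h14 (by omega) (by omega)) h17
      · have := h12 h8
        have := h15 (by omega)
        omega
      · have := h13 h8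
        have := h16 (by omega)
        omega

theorem main [Countable V] {r : V → V → Prop} (hr : IsT r) :
    ∃ s : V → V → Prop, Reversion r s ∧ ∃ c : V → Bool,
      (∀ (N : ℕ), 2 ≤ N → ∀ p : ZMod N → V, Injective p → (∀ i, s (p i) (p (i + 1))) →
        ∃ i j, c (p i) ≠ c (p j)) ∧
      ∀ q : ℤ → V, Injective q → (∀ i, s (q i) (q (i + 1))) → ∃ i j, c (q i) ≠ c (q j) := by
  classical
  obtain ⟨e, he⟩ := exists_injective_nat V
  obtain ⟨lt, T, hlt, hT, hrT, hresp, hin, hout⟩ := exists_order hr
  set M := Mset lt T with hM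
  have hMin : ∀ v ∈ M, {w | w ∈ M ∧ T w v}.Infinite := fun v hv => Mset_in hlt hresp hin hv
  have hMout : ∀ v ∈ M, {w | w ∈ M ∧ T v w}.Infinite := by
    intro v hv
    have hv' : v ∈ Mset (flip lt) (flip T) := ⟨hv.2, hv.1⟩
    refine (Mset_in hlt.flip (fun x y h => hresp y x h) ?_ hv').mono ?_
    · intro u v h1 h2
      refine (hout u v h2 h1).subset ?_
      rintro w ⟨h3, h4, h5, h6⟩
      exact ⟨h4, h3, h5, h6⟩
    · rintro w ⟨h1, h2⟩
      exact ⟨⟨h1.2, h1.1⟩, h2⟩
  obtain ⟨A, T2, hT2, hrT2, hmid, hsame⟩ := exists_mid he hT M hMin hMout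
  set P : V → ℕ := fun v => if v ∈ Wset lt T then 0 else if v ∈ M then (if v ∈ A then 2 else 1)
    else 3 with hP
  have hP0 : ∀ v, P v = 0 ↔ v ∈ Wset lt T := by
    intro v; simp only [hP]; split_ifs <;> simp_all
  have hP1 : ∀ v, P v = 1 ↔ v ∈ M ∧ v ∉ A := by
    intro v
    by_cases h1 : v ∈ Wset lt T
    · have h2 : v ∉ M := fun h => h.1 h1
      simp [hP, h1, h2]
    · by_cases h2 : v ∈ M <;> by_cases h3 : v ∈ A <;> simp [hP, h1, h2, h3]
  have hP2 : ∀ v, P v = 2 ↔ v ∈ M ∧ v ∈ A := by
    intro v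
    by_cases h1 : v ∈ Wset lt T
    · have h2 : v ∉ M := fun h => h.1 h1
      simp [hP, h1, h2]
    · by_cases h2 : v ∈ M <;> by_cases h3 : v ∈ A <;> simp [hP, h1, h2, h3]
  have hP3 : ∀ v, P v = 3 ↔ v ∉ Wset lt T ∧ v ∉ M := by
    intro v
    by_cases h1 : v ∈ Wset lt T <;> by_cases h2 : v ∈ M <;> by_cases h3 : v ∈ A <;>
      simp [hP, h1, h2, h3]
  have hPle : ∀ v, P v ≤ 3 := by
    intro v; simp only [hP]; split_ifs <;> omega
  have hU : ∀ v, P v = 3 → v ∈ Wset (flip lt) (flip T) := by
    intro v hv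
    rw [hP3] at hv
    by_contra h
    exact hv.2 ⟨hv.1, h⟩
  -- the refined order is respected by `T2`
  have hswo := swo_lt2 hlt e P
  have hresp2 : Resp (lt2 lt e P) T2 := by
    rintro x y (h1 | ⟨h1, ⟨h2, h3, h4⟩ | ⟨h2, h3⟩ | ⟨h2, h3⟩⟩)
    · by_cases hx0 : P x = 0
      · have hxW := (hP0 x).1 hx0
        have hyW : y ∉ Wset lt T := fun h => by
          have := (hP0 y).2 h
          omega
        have hlxy : lt x y := by
          by_contra h
          exact hyW (Wset_down hlt hxW h)
        rw [hsame x y (fun h => h.1.1 hxW)]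
        exact hresp x y hlxy
      · by_cases hy3 : P y = 3
        · have hyU := hU y hy3
          have hxM : x ∈ M := by
            by_contra h
            have : P x = 3 := (hP3 x).2 ⟨fun h2 => hx0 ((hP0 x).2 h2), h⟩
            omega
          have hlxy : lt x y := by
            by_contra h
            exact hxM.2 (Wset_down hlt.flip hyU h)
          rw [hsame x y (fun h => ((hP3 y).1 hy3).2 h.2)]
          exact hresp x y hlxy
        · have h5 := hPle y
          have hx1 : P x = 1 := by omega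
          have hy2 : P y = 2 := by omega
          obtain ⟨hxM, hxA⟩ := (hP1 x).1 hx1
          obtain ⟨hyM, hyA⟩ := (hP2 y).1 hy2
          exact hmid x hxM y hyM (Or.inl ⟨hxA, hyA⟩)
    · have hxM : x ∉ M := by
        intro h
        by_cases hA : x ∈ A
        · exact h3 ((hP2 x).2 ⟨h, hA⟩)
        · exact h2 ((hP1 x).2 ⟨h, hA⟩)
      rw [hsame x y (fun h => hxM h.1)]
      exact hresp x y h4
    · obtain ⟨hxM, hxA⟩ := (hP1 x).1 h2
      obtain ⟨hyM, hyA⟩ := (hP1 y).1 (by omega)
      exact hmid x hxM y hyM (Or.inr (Or.inr ⟨hxA, hyA, h3⟩))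
    · obtain ⟨hxM, hxA⟩ := (hP2 x).1 h2
      obtain ⟨hyM, hyA⟩ := (hP2 y).1 (by omega)
      exact hmid x hxM y hyM (Or.inr (Or.inl ⟨hxA, hyA, h3⟩))
  -- the limit
  obtain ⟨s, c, hs, hcl, hc⟩ := exists_limit he hT2
  have hrespB : ∀ R', IsT R' → Bal T2 R' → Resp (lt2 lt e P) R' := fun R' h1 h2 =>
    resp_bal hswo hT2 h1 hresp2 h2
  have hresps : Resp (lt2 lt e P) s := by
    intro x y hxy
    obtain ⟨R', h1, h2, h3⟩ := hcl {s(x, y)}
    exact (h3 x y (Finset.mem_singleton_self _)).1 (hrespB R' h1 h2 x y hxy)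
  have hagree : ∀ R', IsT R' → Bal T2 R' → ∀ u w, (lt2 lt e P w u ∨ lt2 lt e P u w) →
      (T2 w u ↔ R' w u) := by
    rintro R' h1 h2 u w (h3 | h3)
    · exact ⟨fun _ => hrespB R' h1 h2 w u h3, fun _ => hresp2 w u h3⟩
    · exact ⟨fun h => absurd h (hT2.asymm (hresp2 u w h3)),
        fun h => absurd h (h1.asymm (hrespB R' h1 h2 u w h3))⟩
  refine ⟨s, (hrT.trans' (hrT2.trans' (revA_of_closure hT2 hcl))).reversion, ?_⟩
  let c' : V → Bool := fun v => if v ∈ M then decide (v ∈ A) else c v
  -- no monochromatic cycle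
  have hmono : ∀ (N : ℕ), 2 ≤ N → ∀ p : ZMod N → V, Injective p → (∀ i, s (p i) (p (i + 1))) →
      ∃ i j, c' (p i) ≠ c' (p j) := by
    intro N hN p hp hps
    by_contra hcon
    push Not at hcon
    have h1 : ∀ i, ¬ lt2 lt e P (p (i + 1)) (p i) := fun i h => hs.asymm (hps i) (hresps _ _ h)
    have h2 := cyc_class hswo (by omega) p h1
    have h3 : ∀ i, p i ∉ M := by
      intro i hi
      have h4 := h1 i
      have h5 := h2 i
      have hne : e (p i) ≠ e (p (i + 1)) := fun h => hs.ne (hps i) (he h)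
      unfold lt2 at h4 h5
      by_cases hA : p i ∈ A
      · have h6 := (hP2 _).2 ⟨hi, hA⟩
        omega
      · have h6 := (hP1 _).2 ⟨hi, hA⟩
        omega
    obtain ⟨i, j, hij⟩ := hc N hN p hps
    apply hij
    have := hcon i j
    simpa [c', h3] using this
  refine ⟨c', hmono, ?_⟩
  intro q hq hqs
  by_contra hcon
  push Not at hcon
  have hd : ∀ i, ¬ lt2 lt e P (q (i + 1)) (q i) := fun i h => hs.asymm (hqs i) (hresps _ _ h)
  have hdP : ∀ i, P (q i) ≤ P (q (i + 1)) := fun i => not_lt.1 fun h => hd i (Or.inl h)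
  by_cases hcase1 : ∃ i, q i ∈ Wset lt T
  · obtain ⟨i₀, hi₀⟩ := hcase1
    let f : ℕ → V := fun n => q (i₀ - n)
    have hfs : ∀ n, s (f (n + 1)) (f n) := by
      intro n
      have h1 := hqs (i₀ - (n + 1 : ℕ))
      have h2 : i₀ - ((n + 1 : ℕ) : ℤ) + 1 = i₀ - n := by push_cast; ring
      rw [h2] at h1
      exact h1
    have hfinj : Injective f := fun m n h => by
      have := hq h
      omega
    have hfd : ∀ n, ¬ lt2 lt e P (f n) (f (n + 1)) := fun n h =>
      hs.asymm (hfs n) (hresps _ _ h)
    have hfW : ∀ n, P (f n) = 0 := by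
      intro n
      induction n with
      | zero => rw [hP0]; simpa [f] using hi₀
      | succ n ih =>
        by_contra h
        exact hfd n (Or.inl (by omega))
    have hf0 : f 0 ∈ Wset lt T := (hP0 _).1 (hfW 0)
    apply no_desc hlt (s := s) hfinj
    · intro n h
      have h3 := hfW n
      have h4 := hfW (n + 1)
      exact hfd n (Or.inr ⟨by omega, Or.inl ⟨by omega, by omega, h⟩⟩)
    · exact hf0.1
    · exact trans_chain hs hmono hfinj hfs fun m n => hcon _ _
    · intro u hu
      have huW := Wset_down hlt hf0 hu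
      have huM : u ∉ M := fun h => h.1 huW
      have hPu := (hP0 u).2 huW
      have h5 := fatou (R := T2) (s := s) hcl {w | ¬ lt w u ∧ ¬ lt u w} u ?_ ?_
      · refine h5.subset ?_
        rintro w ⟨h6, h7, h8⟩
        exact ⟨⟨h6, h7⟩, h8⟩
      · intro R' h6 h7 w hw
        apply hagree R' h6 h7
        by_cases h8 : lt w u
        · left
          have h9 : P w = 0 := (hP0 w).2 (Wset_down hlt huW (hlt.asymm _ _ h8))
          exact Or.inr ⟨by omega, Or.inl ⟨by omega, by omega, h8⟩⟩
        · right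
          have h9 : lt u w := by
            by_contra h9
            exact hw ⟨h8, h9⟩
          by_cases h10 : P w = 0
          · exact Or.inr ⟨by omega, Or.inl ⟨by omega, by omega, h9⟩⟩
          · exact Or.inl (by omega)
      · refine (huW.2 u (hlt.irrefl u)).subset ?_
        rintro w ⟨⟨h6, h7⟩, h8⟩
        exact ⟨h6, h7, (hsame w u (fun h => huM h.2)).1 h8⟩
  · by_cases hcase2 : ∃ i, P (q i) = 3
    · obtain ⟨i₀, hi₀⟩ := hcase2
      let f : ℕ → V := fun n => q (i₀ + n)
      have hfs : ∀ n, s (f n) (f (n + 1)) := by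
        intro n
        have h1 := hqs (i₀ + n)
        have h2 : i₀ + (n : ℤ) + 1 = i₀ + ((n + 1 : ℕ) : ℤ) := by push_cast; ring
        rw [h2] at h1
        exact h1
      have hfinj : Injective f := fun m n h => by
        have := hq h
        omega
      have hfd : ∀ n, ¬ lt2 lt e P (f (n + 1)) (f n) := fun n h =>
        hs.asymm (hfs n) (hresps _ _ h)
      have hfU : ∀ n, P (f n) = 3 := by
        intro n
        induction n with
        | zero => simpa [f] using hi₀
        | succ n ih =>
          by_contra h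
          have := hPle (f (n + 1))
          exact hfd n (Or.inl (by omega))
      have hf0 : f 0 ∈ Wset (flip lt) (flip T) := hU _ (hfU 0)
      apply no_desc hlt.flip (s := flip s) hfinj
      · intro n h
        have h3 := hfU n
        have h4 := hfU (n + 1)
        exact hfd n (Or.inr ⟨by omega, Or.inl ⟨by omega, by omega, h⟩⟩)
      · exact hf0.1
      · exact trans_chain hs.flip (noMono_flip hmono) hfinj hfs fun m n => hcon _ _
      · intro u hu
        have huU := Wset_down hlt.flip hf0 hu
        have huW : u ∉ Wset lt T := by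
          intro h
          have h1 := (hP0 _).2 (Wset_down hlt h hu)
          have h2 := hfU 0
          omega
        have huM : u ∉ M := fun h => h.2 huU
        have hPu : P u = 3 := (hP3 u).2 ⟨huW, huM⟩
        have h5 := fatou (R := flip T2) (s := flip s) (fun E => by
          obtain ⟨R', h1, h2, h3⟩ := hcl E
          exact ⟨flip R', h1.flip, h2.flip hT2 h1, fun x y hxy =>
            h3 y x (by rwa [Sym2.eq_swap])⟩) {w | ¬ lt w u ∧ ¬ lt u w} u ?_ ?_
        · refine h5.subset ?_
          rintro w ⟨h6, h7, h8⟩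
          exact ⟨⟨h7, h6⟩, h8⟩
        · intro R' h6 h7 w hw
          have h8 : Bal T2 (flip R') := h7.flip hT2.flip h6
          apply hagree (flip R') h6.flip h8
          by_cases h9 : lt w u
          · right
            by_cases h10 : P w = 3
            · exact Or.inr ⟨by omega, Or.inl ⟨by omega, by omega, h9⟩⟩
            · have := hPle w
              exact Or.inl (by omega)
          · left
            have h10 : lt u w := by
              by_contra h10
              exact hw ⟨h9, h10⟩
            have h11 : P w = 3 := by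
              rw [hP3]
              have h12 : w ∈ Wset (flip lt) (flip T) :=
                Wset_down hlt.flip huU (hlt.asymm _ _ h10)
              refine ⟨fun h => ?_, fun h => h.2 h12⟩
              exact huW (Wset_down hlt h (hlt.asymm _ _ h10))
            exact Or.inr ⟨by omega, Or.inl ⟨by omega, by omega, h10⟩⟩
        · refine (huU.2 u (hlt.irrefl u)).subset ?_
          rintro w ⟨⟨h6, h7⟩, h8⟩
          exact ⟨h7, h6, (hsame u w (fun h => huM h.1)).1 h8⟩
    · -- everything in the middle part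
      have hqM : ∀ i, q i ∈ M := by
        intro i
        by_contra h
        exact hcase2 ⟨i, (hP3 _).2 ⟨fun h2 => hcase1 ⟨i, h2⟩, h⟩⟩
      have hne : ∀ i, e (q i) ≠ e (q (i + 1)) := fun i h => hs.ne (hqs i) (he h)
      by_cases hA : q 0 ∈ A
      · have hqA : ∀ i, P (q i) = 2 := by
          intro i
          rw [hP2]
          refine ⟨hqM i, ?_⟩
          have := hcon 0 i
          simpa [c', hqM, hA] using this.symm
        have hlt' : ∀ i, e (q i) < e (q (i + 1)) := by
          intro i
          have h1 := hd i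
          have h2 := hne i
          have h3 := hqA i
          have h4 := hqA (i + 1)
          unfold lt2 at h1
          omega
        have key : ∀ n : ℕ, e (q (-(n : ℤ))) + n ≤ e (q 0) := by
          intro n
          induction n with
          | zero => simp
          | succ n ih =>
            have h1 := hlt' (-((n + 1 : ℕ) : ℤ))
            have h2 : -((n + 1 : ℕ) : ℤ) + 1 = -(n : ℤ) := by push_cast; ring
            rw [h2] at h1
            omega
        have := key (e (q 0) + 1)
        omega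
      · have hqA : ∀ i, P (q i) = 1 := by
          intro i
          rw [hP1]
          refine ⟨hqM i, ?_⟩
          have := hcon 0 i
          simpa [c', hqM, hA] using this.symm
        have hlt' : ∀ i, e (q (i + 1)) < e (q i) := by
          intro i
          have h1 := hd i
          have h2 := hne i
          have h3 := hqA i
          have h4 := hqA (i + 1)
          unfold lt2 at h1
          omega
        have key : ∀ n : ℕ, e (q (n : ℤ)) + n ≤ e (q 0) := by
          intro n
          induction n with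
          | zero => simp
          | succ n ih =>
            have h1 := hlt' (n : ℤ)
            have h2 : (((n + 1 : ℕ)) : ℤ) = (n : ℤ) + 1 := by push_cast; ring
            rw [h2]
            omega
        have := key (e (q 0) + 1)
        omega

end Pool.Agent.Helper4.ZC
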