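import Pool.Agent.Helper4.ZC.Struct

set_option autoImplicit false

/-! The middle part is rearranged into a set of type `ω` and a set of type `ω*`. -/

namespace Pool.Agent.Helper4.ZC

open Function Order

universe u

variable {V : Type u}

/-- The target order on the middle part: `M \ A` (type `ω*`) before `A` (type `ω`). -/
def tgt (e : V → ℕ) (A : Set V) (x y : V) : Prop :=
  (x ∉ A ∧ y ∈ A) ∨ (x ∈ A ∧ y ∈ A ∧ e x < e y) ∨ (x ∉ A ∧ y ∉ A ∧ e y < e x)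

theorem tgt_asymm {e : V → ℕ} {A : Set V} {x y : V} (h : tgt e A x y) : ¬ tgt e A y x := by
  unfold tgt at h ⊢
  by_cases hx : x ∈ A <;> by_cases hy : y ∈ A <;> simp only [hx, hy, not_true_eq_false,
    not_false_eq_true, true_and, false_and, and_self, or_false, false_or, and_true] at h ⊢ <;> omega

theorem tgt_total {e : V → ℕ} (he : Injective e) {A : Set V} {x y : V} (h : x ≠ y) :
    tgt e A x y ∨ tgt e A y x := by
  have h1 : e x ≠ e y := fun h2 => h (he h2)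
  unfold tgt
  by_cases hx : x ∈ A <;> by_cases hy : y ∈ A <;> simp only [hx, hy, not_true_eq_false,
    not_false_eq_true, true_and, false_and, and_self, or_false, false_or, and_true, or_true,
    true_or] <;> omega

theorem exists_mid [Countable V] {e : V → ℕ} (he : Injective e) {T : V → V → Prop} (hT : IsT T)
    (M : Set V) (hin : ∀ v ∈ M, {w | w ∈ M ∧ T w v}.Infinite)
    (hout : ∀ v ∈ M, {w | w ∈ M ∧ T v w}.Infinite) :
    ∃ (A : Set V) (T' : V → V → Prop), IsT T' ∧ RevA ∅ T T' ∧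
      (∀ x ∈ M, ∀ y ∈ M, tgt e A x y → T' x y) ∧
      ∀ x y, ¬ (x ∈ M ∧ y ∈ M) → (T' x y ↔ T x y) := by
  classical
  let Y : M × ULift.{u} Bool → Set V := fun i =>
    if i.2.down then {w | w ∈ M ∧ T w i.1} else {w | w ∈ M ∧ T i.1 w}
  have hYinf : ∀ i, (Y i).Infinite := by
    rintro ⟨⟨v, hv⟩, ⟨b⟩⟩
    cases b
    · simpa [Y] using hout v hv
    · simpa [Y] using hin v hv
  obtain ⟨A, hA⟩ := exists_split Y hYinf
  have hinA : ∀ v ∈ M, ({w | w ∈ M ∧ T w v} ∩ A).Infinite := fun v hv => by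
    have := (hA (⟨v, hv⟩, ⟨true⟩)).1
    simpa [Y] using this
  have houtB : ∀ v ∈ M, ({w | w ∈ M ∧ T v w} \ A).Infinite := fun v hv => by
    have := (hA (⟨v, hv⟩, ⟨false⟩)).2
    simpa [Y] using this
  let G : Set (Sym2 V) := {f | ∃ x y, f = s(x, y) ∧ x ∈ M ∧ y ∈ M ∧ T x y ∧ tgt e A y x}
  have hG : ∀ x y, s(x, y) ∈ G ↔ x ∈ M ∧ y ∈ M ∧ ((T x y ∧ tgt e A y x) ∨ (T y x ∧ tgt e A x y)) := by
    intro x y
    constructor
    · rintro ⟨a, b, h1, h2, h3, h4, h5⟩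
      rw [Sym2.eq_iff] at h1
      rcases h1 with ⟨rfl, rfl⟩ | ⟨rfl, rfl⟩
      · exact ⟨h2, h3, Or.inl ⟨h4, h5⟩⟩
      · exact ⟨h3, h2, Or.inr ⟨h4, h5⟩⟩
    · rintro ⟨h1, h2, h3 | h3⟩
      · exact ⟨x, y, rfl, h1, h2, h3.1, h3.2⟩
      · exact ⟨y, x, Sym2.eq_swap, h2, h1, h3.1, h3.2⟩
  have hfin : ∀ n, {w : V | e w ≤ n}.Finite := fun n =>
    Set.Finite.preimage (f := e) he.injOn (Set.finite_le_nat n)
  have hRout : ∀ x ∈ M, {w | s(x, w) ∈ G ∧ T x w}.Infinite := by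
    intro x hx
    refine ((houtB x hx).sdiff (hfin (e x))).mono ?_
    rintro w ⟨⟨⟨h1, h2⟩, h3⟩, h4⟩
    refine ⟨(hG x w).2 ⟨hx, h1, Or.inl ⟨h2, ?_⟩⟩, h2⟩
    have h5 : e x < e w := not_le.1 h4
    unfold tgt
    by_cases hxA : x ∈ A
    · exact Or.inl ⟨h3, hxA⟩
    · exact Or.inr (Or.inr ⟨h3, hxA, h5⟩)
  have hRin : ∀ x ∈ M, {w | s(w, x) ∈ G ∧ T w x}.Infinite := by
    intro x hx
    refine ((hinA x hx).sdiff (hfin (e x))).mono ?_
    rintro w ⟨⟨⟨h1, h2⟩, h3⟩, h4⟩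
    refine ⟨(hG w x).2 ⟨h1, hx, Or.inl ⟨h2, ?_⟩⟩, h2⟩
    have h5 : e x < e w := not_le.1 h4
    unfold tgt
    by_cases hxA : x ∈ A
    · exact Or.inr (Or.inl ⟨hxA, h3, h5⟩)
    · exact Or.inl ⟨hxA, h3⟩
  have hrich : Rich T G := by
    intro x y hxy
    obtain ⟨h1, h2, h3⟩ := (hG x y).1 hxy
    refine ⟨?_, hRout x h1, hRin x h1⟩
    rcases h3 with h3 | h3
    · exact hT.ne h3.1
    · exact (hT.ne h3.1).symm
  refine ⟨A, reverse T G, hT.reverse G, reverse_rich hT G hrich, ?_, ?_⟩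
  · intro x hx y hy hxy
    have hne : x ≠ y := by
      rintro rfl
      exact tgt_asymm hxy hxy
    by_cases h : T x y
    · refine (reverse_of_notMem ?_).2 h
      rw [hG]
      rintro ⟨-, -, ⟨-, h3⟩ | ⟨h3, -⟩⟩
      · exact tgt_asymm hxy h3
      · exact hT.asymm h h3
    · have h1 : T y x := hT.of_not hne.symm h
      exact (reverse_of_mem ((hG x y).2 ⟨hx, hy, Or.inr ⟨h1, hxy⟩⟩)).2 h1
  · intro x y hxy
    rw [reverse_of_notMem]
    rw [hG]
    rintro ⟨h1, h2, -⟩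
    exact hxy ⟨h1, h2⟩

end Pool.Agent.Helper4.ZC
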