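import Pool.Agent.Helper4.ZC.Chain
import Pool.Agent.Helper4.ZC.Col

set_option autoImplicit false

/-! The structure of a countable tournament modulo almost equality of the out-neighbourhoods. -/

namespace Pool.Agent.Helper4.ZC

open Function Order

universe u

variable {V : Type u}

/-- Negatively transitive and asymmetric relations (strict weak orders). -/
structure SWO (lt : V → V → Prop) : Prop where
  asymm : ∀ x y, lt x y → ¬ lt y x
  neg : ∀ x y z, ¬ lt x y → ¬ lt y z → ¬ lt x z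

theorem SWO.flip {lt : V → V → Prop} (h : SWO lt) : SWO (flip lt) :=
  ⟨fun x y h1 => h.asymm y x h1, fun x y z h1 h2 => h.neg z y x h2 h1⟩

theorem SWO.lt_of_lt_of_not {lt : V → V → Prop} (h : SWO lt) {x y z : V} (h1 : lt x y)
    (h2 : ¬ lt z y) : lt x z := by
  by_contra h3
  exact h.neg x z y h3 h2 h1

theorem SWO.lt_of_not_of_lt {lt : V → V → Prop} (h : SWO lt) {x y z : V} (h1 : ¬ lt y x)
    (h2 : lt y z) : lt x z := by
  by_contra h3
  exact h.neg y x z h1 h3 h2

theorem SWO.irrefl {lt : V → V → Prop} (h : SWO lt) (x : V) : ¬ lt x x := fun h1 =>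
  h.asymm x x h1 h1

/-- The relation is respected by the tournament. -/
def Resp (lt T : V → V → Prop) : Prop := ∀ x y, lt x y → T x y

/-- First step: the vertices are arranged in classes. -/
theorem exists_order [Countable V] {r : V → V → Prop} (hr : IsT r) :
    ∃ lt T : V → V → Prop, SWO lt ∧ IsT T ∧ RevA ∅ r T ∧ Resp lt T ∧
      (∀ u v, ¬ lt u v → ¬ lt v u → {w | ¬ lt w u ∧ ¬ lt u w ∧ T w u ∧ ¬ T w v}.Finite) ∧
      (∀ u v, ¬ lt u v → ¬ lt v u → {w | ¬ lt w u ∧ ¬ lt u w ∧ T u w ∧ ¬ T v w}.Finite) := by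
  classical
  let P : Preorder V :=
    { le := fun u v => {w | r v w ∧ ¬ r u w}.Finite
      le_refl := fun u => by
        have : {w | r u w ∧ ¬ r u w} = ∅ := by ext w; simp
        rw [this]; exact Set.finite_empty
      le_trans := fun u v w h1 h2 => by
        refine (h1.union h2).subset ?_
        rintro x ⟨hx1, hx2⟩
        by_cases h : r v x
        · exact Or.inl ⟨h, hx2⟩
        · exact Or.inr ⟨hx1, h⟩ }
  have hle : ∀ u v : V, u ≤ v ↔ {w | r v w ∧ ¬ r u w}.Finite := fun _ _ => Iff.rfl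
  let κ : V → LinearExtension (Antisymmetrization V (· ≤ ·)) := fun v =>
    toLinearExtension (toAntisymmetrization (· ≤ ·) v)
  have hκ1 : ∀ u v, u ≤ v → κ u ≤ κ v := fun u v h =>
    toLinearExtension.monotone (toAntisymmetrization_mono h)
  have hκ2 : ∀ u v, κ u = κ v → u ≤ v ∧ v ≤ u := by
    intro u v h
    have h1 : toAntisymmetrization (· ≤ ·) u = toAntisymmetrization (· ≤ ·) v := h
    exact ⟨toAntisymmetrization_le_toAntisymmetrization_iff.1 h1.le,
      toAntisymmetrization_le_toAntisymmetrization_iff.1 h1.ge⟩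
  let lt : V → V → Prop := fun u v => κ u < κ v
  have hcls : ∀ u v, ¬ lt u v → ¬ lt v u → κ u = κ v := fun u v h1 h2 =>
    le_antisymm (not_lt.1 h2) (not_lt.1 h1)
  let S : Set (Sym2 V) := {f | ∃ x y, f = s(x, y) ∧ κ x < κ y ∧ r y x}
  have hSmem : ∀ x y, s(x, y) ∈ S ↔ (κ x < κ y ∧ r y x) ∨ (κ y < κ x ∧ r x y) := by
    intro x y
    constructor
    · rintro ⟨a, b, h1, h2, h3⟩
      rw [Sym2.eq_iff] at h1
      rcases h1 with ⟨rfl, rfl⟩ | ⟨rfl, rfl⟩
      · exact Or.inl ⟨h2, h3⟩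
      · exact Or.inr ⟨h2, h3⟩
    · rintro (h | h)
      · exact ⟨x, y, rfl, h⟩
      · exact ⟨y, x, Sym2.eq_swap, h⟩
  have hT1 : ∀ x y, κ x < κ y → reverse r S x y := by
    intro x y hxy
    have hne : x ≠ y := fun h => by rw [h] at hxy; exact lt_irrefl _ hxy
    by_cases h : r x y
    · refine (reverse_of_notMem ?_).2 h
      rw [hSmem]
      rintro (⟨-, h2⟩ | ⟨h1, -⟩)
      · exact hr.asymm h h2
      · exact lt_asymm hxy h1
    · have h1 : r y x := hr.of_not hne.symm h
      exact (reverse_of_mem ((hSmem x y).2 (Or.inl ⟨hxy, h1⟩))).2 h1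
  have hT2 : ∀ x y, κ x = κ y → (reverse r S x y ↔ r x y) := by
    intro x y hxy
    rw [reverse_of_notMem]
    rw [hSmem]
    rintro (⟨h1, -⟩ | ⟨h1, -⟩)
    · exact absurd hxy h1.ne
    · exact absurd hxy h1.ne'
  refine ⟨lt, reverse r S, ⟨fun x y h => lt_asymm h, fun x y z h1 h2 => ?_⟩, hr.reverse S, ?_,
    hT1, ?_, ?_⟩
  · exact not_lt.2 ((not_lt.1 h2).trans (not_lt.1 h1))
  · apply flip_many hr
    intro x y hxy hrxy
    rw [hSmem] at hxy
    rcases hxy with ⟨-, h⟩ | ⟨h1, -⟩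
    · exact absurd h (hr.asymm hrxy)
    · have h2 : ¬ x ≤ y := fun h => absurd (hκ1 x y h) (not_le.2 h1)
      rw [hle] at h2
      refine Set.Infinite.mono ?_ h2
      rintro w ⟨h3, h4⟩
      refine ⟨h3, hr.of_not ?_ h4⟩
      rintro rfl
      exact hr.asymm hrxy h3
  · intro u v h1 h2
    have huv := hcls u v h1 h2
    have h3 := (hκ2 u v huv).1
    rw [hle] at h3
    refine (h3.union (Set.finite_singleton v)).subset ?_
    rintro w ⟨h4, h5, h6, h7⟩
    have hwu := hcls w u h4 h5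
    rw [hT2 w u hwu] at h6
    rw [hT2 w v (hwu.trans huv)] at h7
    by_cases h8 : w = v
    · exact Or.inr h8
    · refine Or.inl ⟨hr.of_not (Ne.symm h8) h7, hr.asymm h6⟩
  · intro u v h1 h2
    have huv := hcls u v h1 h2
    have h3 := (hκ2 u v huv).2
    rw [hle] at h3
    refine h3.subset ?_
    rintro w ⟨h4, h5, h6, h7⟩
    have hwu := hcls w u h4 h5
    rw [hT2 u w hwu.symm] at h6
    rw [hT2 v w (hwu.trans huv).symm] at h7
    exact ⟨h6, h7⟩

/-- The vertices below which the order has no infinite descending sequence and all the classes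
have finite in-degrees. -/
def Wset (lt T : V → V → Prop) : Set V :=
  {v | (¬ ∃ f : ℕ → V, (∀ n, lt (f (n + 1)) (f n)) ∧ ¬ lt v (f 0)) ∧
    ∀ u, ¬ lt v u → {w | ¬ lt w u ∧ ¬ lt u w ∧ T w u}.Finite}

theorem Wset_down {lt T : V → V → Prop} (hlt : SWO lt) {u v : V} (hv : v ∈ Wset lt T)
    (huv : ¬ lt v u) : u ∈ Wset lt T := by
  refine ⟨?_, fun x hx => hv.2 x (hlt.neg v u x huv hx)⟩
  rintro ⟨f, h1, h2⟩
  exact hv.1 ⟨f, h1, hlt.neg v u _ huv h2⟩

/-- The remaining vertices. -/
def Mset (lt T : V → V → Prop) : Set V :=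
  {v | v ∉ Wset lt T ∧ v ∉ Wset (flip lt) (flip T)}

theorem Mset_in {lt T : V → V → Prop} (hlt : SWO lt) (hT : Resp lt T)
    (hin : ∀ u v, ¬ lt u v → ¬ lt v u → {w | ¬ lt w u ∧ ¬ lt u w ∧ T w u ∧ ¬ T w v}.Finite)
    {v : V} (hv : v ∈ Mset lt T) : {w | w ∈ Mset lt T ∧ T w v}.Infinite := by
  obtain ⟨hv1, hv2⟩ := hv
  have hnU : ∀ w, ¬ lt v w → w ∉ Wset (flip lt) (flip T) := fun w hw h =>
    hv2 (Wset_down hlt.flip h hw)
  by_cases h : ∃ f : ℕ → V, (∀ n, lt (f (n + 1)) (f n)) ∧ ¬ lt v (f 0)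
  · obtain ⟨f, h1, h2⟩ := h
    have hlts : ∀ m n, m < n → lt (f n) (f m) := by
      intro m n hmn
      induction n, hmn using Nat.le_induction with
      | base => exact h1 m
      | succ n _ ih => exact hlt.lt_of_not_of_lt (hlt.asymm _ _ (h1 n)) ih |> fun _ =>
          hlt.lt_of_lt_of_not (h1 n) (hlt.asymm _ _ ih)
    have hinj : Injective f := by
      intro m n hmn
      rcases lt_trichotomy m n with h3 | h3 | h3
      · have := hlts m n h3
        rw [hmn] at this
        exact absurd this (hlt.irrefl _)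
      · exact h3
      · have := hlts n m h3
        rw [hmn] at this
        exact absurd this (hlt.irrefl _)
    have hmem : ∀ n, f (n + 1) ∈ {w | w ∈ Mset lt T ∧ T w v} := by
      intro n
      have h3 : lt (f (n + 1)) v := hlt.lt_of_lt_of_not (hlts 0 (n + 1) (by omega)) h2
      refine ⟨⟨fun h4 => h4.1 ⟨fun k => f (n + 1 + k), fun k => h1 _, hlt.irrefl _⟩,
        hnU _ (hlt.asymm _ _ h3)⟩, hT _ _ h3⟩
    exact Set.infinite_of_injective_forall_mem (f := fun n => f (n + 1))
      (fun m n h => by simpa using hinj h) hmem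
  · have h2 : ∃ u, ¬ lt v u ∧ {w | ¬ lt w u ∧ ¬ lt u w ∧ T w u}.Infinite := by
      by_contra hcon
      push Not at hcon
      exact hv1 ⟨h, hcon⟩
    obtain ⟨u, huv, hu⟩ := h2
    have hmem : ∀ w, ¬ lt w u → ¬ lt u w → w ∈ Mset lt T := by
      intro w h3 h4
      exact ⟨fun h5 => hu (h5.2 u h3), hnU w (hlt.neg v u w huv h4)⟩
    by_cases h3 : lt u v
    · refine hu.mono ?_
      rintro w ⟨h4, h5, h6⟩
      refine ⟨hmem w h4 h5, hT _ _ ?_⟩
      exact hlt.lt_of_not_of_lt h5 h3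
    · refine (hu.sdiff (hin u v h3 huv)).mono ?_
      rintro w ⟨⟨h4, h5, h6⟩, h7⟩
      refine ⟨hmem w h4 h5, ?_⟩
      by_contra h8
      exact h7 ⟨h4, h5, h6, h8⟩

/-- Splitting a countable family of infinite sets. -/
theorem exists_split {ι : Type u} [Countable ι] (Y : ι → Set V) (hY : ∀ i, (Y i).Infinite) :
    ∃ A : Set V, ∀ i, (Y i ∩ A).Infinite ∧ (Y i \ A).Infinite := by
  classical
  rcases isEmpty_or_nonempty ι with h | h
  · exact ⟨∅, fun i => h.elim i⟩
  obtain ⟨g, hg⟩ := exists_surjective_nat ι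
  -- the indices `(i, k, b)`
  let d : ℕ → ι × Bool := fun n => (g (Nat.unpair n).1, decide ((Nat.unpair n).2 % 2 = 0))
  obtain ⟨x, hx1, hx2⟩ := exists_injective_rep (fun n => Y (d n).1) fun n => hY _
  have hinf : ∀ i b, {n | d n = (i, b)}.Infinite := by
    intro i b
    obtain ⟨m, rfl⟩ := hg i
    refine Set.infinite_of_injective_forall_mem
      (f := fun k : ℕ => Nat.pair m (2 * k + if b then 0 else 1)) ?_ ?_
    · intro k k' h
      have h1 := congrArg Nat.unpair h
      simp only [Nat.unpair_pair, Prod.mk.injEq, true_and] at h1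
      omega
    · intro k
      simp only [Set.mem_ofPred_eq, d, Nat.unpair_pair]
      cases b
      · simp [Nat.add_mod]
      · simp
  refine ⟨{v | ∃ n, x n = v ∧ (d n).2 = true}, fun i => ⟨?_, ?_⟩⟩
  · have h1 : x '' {n | d n = (i, true)} ⊆ Y i ∩ {v | ∃ n, x n = v ∧ (d n).2 = true} := by
      rintro _ ⟨n, hn, rfl⟩
      have hn' : d n = (i, true) := hn
      refine ⟨?_, n, rfl, by rw [hn']⟩
      have := hx2 n
      simpa [hn'] using this
    exact ((hinf i true).image hx1.injOn).mono h1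
  · have h1 : x '' {n | d n = (i, false)} ⊆ Y i \ {v | ∃ n, x n = v ∧ (d n).2 = true} := by
      rintro _ ⟨n, hn, rfl⟩
      have hn' : d n = (i, false) := hn
      refine ⟨?_, ?_⟩
      · have := hx2 n
        simpa [hn'] using this
      · rintro ⟨m, hm1, hm2⟩
        have := hx1 hm1
        subst this
        rw [hn'] at hm2
        exact absurd hm2 (by simp)
    exact ((hinf i false).image hx1.injOn).mono h1

end Pool.Agent.Helper4.ZC
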